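import Pool.Graph.R_pool_sql_team_seeded_2aa45f1a.Q54.FM.Box

set_option autoImplicit false

/-!
# Unions of boxes, and several irrational numbers at once

As in `Q54.FM.Box`, but the sets of good fractional parts are unions of finitely many intervals.
-/

namespace Pool.Agent.H46.SD

open Finset Polynomial Pool.Agent.Q29.Eqd Pool.Agent.Q54.FM

/-- the cells of length `1 / q` inside of `(a, b)` -/
lemma cells_in {q : ℕ} (hq : 1 ≤ q) {a b : ℝ} (ha : 0 ≤ a) (hab : a ≤ b) (hb : b ≤ 1) :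
    (q : ℝ) * (b - a) - 2 ≤
      (((range q).filter fun ρ : ℕ => a < (ρ : ℝ) / q ∧ ((ρ : ℝ) + 1) / q ≤ b).card : ℝ) := by
  have hq0 : (0 : ℝ) < q := by exact_mod_cast hq
  have hqa : (0 : ℝ) ≤ q * a := mul_nonneg hq0.le ha
  have hqb : (0 : ℝ) ≤ q * b := mul_nonneg hq0.le (ha.trans hab)
  have h1 : Finset.Ico (⌊(q : ℝ) * a⌋₊ + 1) ⌊(q : ℝ) * b⌋₊ ⊆
      (range q).filter fun ρ : ℕ => a < (ρ : ℝ) / q ∧ ((ρ : ℝ) + 1) / q ≤ b := by
    intro ρ hρ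
    rw [Finset.mem_Ico] at hρ
    have h2 : ((ρ : ℝ) + 1) ≤ q * b := by
      have h3 : ((ρ + 1 : ℕ) : ℝ) ≤ (⌊(q : ℝ) * b⌋₊ : ℝ) := by exact_mod_cast hρ.2
      have h4 := Nat.floor_le hqb
      push_cast at h3
      linarith
    have h5 : (q : ℝ) * a < ρ := by
      have h6 := Nat.lt_floor_add_one ((q : ℝ) * a)
      have h7 : ((⌊(q : ℝ) * a⌋₊ + 1 : ℕ) : ℝ) ≤ ρ := by exact_mod_cast hρ.1
      push_cast at h7
      linarith
    rw [mem_filter, mem_range]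
    refine ⟨?_, ?_, ?_⟩
    · have h8 : ((ρ : ℝ) + 1) ≤ q := h2.trans (by nlinarith)
      have h9 : ρ + 1 ≤ q := by exact_mod_cast h8
      omega
    · rw [lt_div_iff₀ hq0, mul_comm]
      exact h5
    · rw [div_le_iff₀ hq0, mul_comm b]
      exact h2
  have h2 := card_le_card h1
  rw [Nat.card_Ico] at h2
  have h3 : (⌊(q : ℝ) * b⌋₊ : ℝ) - (⌊(q : ℝ) * a⌋₊ + 1) ≤
      (((range q).filter fun ρ : ℕ => a < (ρ : ℝ) / q ∧ ((ρ : ℝ) + 1) / q ≤ b).card : ℝ) := by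
    have h4 : ⌊(q : ℝ) * b⌋₊ ≤ ((range q).filter fun ρ : ℕ => a < (ρ : ℝ) / q ∧ ((ρ : ℝ) + 1) / q ≤ b).card +
        (⌊(q : ℝ) * a⌋₊ + 1) := by omega
    have h5 : (⌊(q : ℝ) * b⌋₊ : ℝ) ≤
        (((range q).filter fun ρ : ℕ => a < (ρ : ℝ) / q ∧ ((ρ : ℝ) + 1) / q ≤ b).card : ℝ) +
        (⌊(q : ℝ) * a⌋₊ + 1) := by exact_mod_cast h4
    linarith
  have h4 := Nat.lt_floor_add_one ((q : ℝ) * b)
  have h5 := Nat.floor_le hqa
  linarith

open Classical in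
/-- the cells inside of one of `k` disjoint intervals -/
lemma cells_union {q k : ℕ} (hq : 1 ≤ q) {a b : Fin k → ℝ} (ha : ∀ i, 0 ≤ a i) (hab : ∀ i, a i ≤ b i)
    (hb : ∀ i, b i ≤ 1) (hdis : ∀ i i', i < i' → b i ≤ a i') :
    (q : ℝ) * (∑ i, (b i - a i)) - 2 * k ≤
      (((range q).filter fun ρ : ℕ => ∃ i, a i < (ρ : ℝ) / q ∧ ((ρ : ℝ) + 1) / q ≤ b i).card : ℝ) := by
  have hq0 : (0 : ℝ) < q := by exact_mod_cast hq
  have h1 : (univ : Finset (Fin k)).biUnion (fun i => (range q).filter fun ρ : ℕ =>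
      a i < (ρ : ℝ) / q ∧ ((ρ : ℝ) + 1) / q ≤ b i) ⊆
      (range q).filter fun ρ : ℕ => ∃ i, a i < (ρ : ℝ) / q ∧ ((ρ : ℝ) + 1) / q ≤ b i := by
    intro ρ hρ
    rw [mem_biUnion] at hρ
    obtain ⟨i, -, hi⟩ := hρ
    rw [mem_filter] at hi ⊢
    exact ⟨hi.1, i, hi.2⟩
  have hne : ∀ i i' : Fin k, i < i' → ∀ ρ : ℕ, ¬ ((a i < (ρ : ℝ) / q ∧ ((ρ : ℝ) + 1) / q ≤ b i) ∧
      (a i' < (ρ : ℝ) / q ∧ ((ρ : ℝ) + 1) / q ≤ b i')) := by
    intro i i' hi ρ h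
    have h2 := hdis i i' hi
    have h3 : (ρ : ℝ) / q < ((ρ : ℝ) + 1) / q := div_lt_div_of_pos_right (by linarith) hq0
    linarith [h.1.2, h.2.1]
  have hdisj : ∀ i ∈ (univ : Finset (Fin k)), ∀ i' ∈ (univ : Finset (Fin k)), i ≠ i' →
      Disjoint ((range q).filter fun ρ : ℕ => a i < (ρ : ℝ) / q ∧ ((ρ : ℝ) + 1) / q ≤ b i)
        ((range q).filter fun ρ : ℕ => a i' < (ρ : ℝ) / q ∧ ((ρ : ℝ) + 1) / q ≤ b i') := by
    intro i _ i' _ hii
    rw [Finset.disjoint_left]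
    intro ρ h2 h3
    rw [mem_filter] at h2 h3
    rcases lt_or_gt_of_ne hii with h | h
    · exact hne i i' h ρ ⟨h2.2, h3.2⟩
    · exact hne i' i h ρ ⟨h3.2, h2.2⟩
  have h2 := card_le_card h1
  rw [card_biUnion hdisj] at h2
  have h3 : (∑ i, (((range q).filter fun ρ : ℕ => a i < (ρ : ℝ) / q ∧ ((ρ : ℝ) + 1) / q ≤ b i).card : ℝ)) ≤
      (((range q).filter fun ρ : ℕ => ∃ i, a i < (ρ : ℝ) / q ∧ ((ρ : ℝ) + 1) / q ≤ b i).card : ℝ) := by
    exact_mod_cast h2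
  refine le_trans ?_ h3
  have h4 : ∑ i : Fin k, ((q : ℝ) * (b i - a i) - 2) ≤
      ∑ i, (((range q).filter fun ρ : ℕ => a i < (ρ : ℝ) / q ∧ ((ρ : ℝ) + 1) / q ≤ b i).card : ℝ) :=
    sum_le_sum fun i _ => cells_in hq (ha i) (hab i) (hb i)
  refine le_trans (le_of_eq ?_) h4
  conv_rhs => rw [sum_sub_distrib, ← mul_sum, sum_const, card_univ, Fintype.card_fin, nsmul_eq_mul]
  ring

open Classical in
lemma box_lower2 {s k : ℕ} (S : Finset ℕ) (y : ℕ → Fin s → ℝ) (Q E : ℝ) (hE : 0 ≤ E) (h : EquiJ S y Q E) (q : ℕ)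
    (hq1 : 1 ≤ q) (hqQ : (q : ℝ) ≤ Q) (a b : Fin s → Fin k → ℝ) (ha : ∀ j i, 0 ≤ a j i)
    (hab : ∀ j i, a j i ≤ b j i) (hb : ∀ j i, b j i ≤ 1) (hdis : ∀ j i i', i < i' → b j i ≤ a j i')
    (hsum0 : ∀ j, 0 ≤ ∑ i, (b j i - a j i)) (hsum1 : ∀ j, ∑ i, (b j i - a j i) ≤ 1) :
    (∏ j, ∑ i, (b j i - a j i) - s * (2 * k / q)) * S.card - (q : ℝ) ^ s * E ≤
      ((S.filter fun n => ∀ j, ∃ i, a j i < Int.fract (y n j) ∧ Int.fract (y n j) < b j i).card : ℝ) := by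
  have hq0 : (0 : ℝ) < q := by exact_mod_cast hq1
  obtain ⟨R, hR⟩ : ∃ R : Fin s → Finset ℕ, R = fun j => (range q).filter fun ρ : ℕ =>
    ∃ i, a j i < (ρ : ℝ) / q ∧ ((ρ : ℝ) + 1) / q ≤ b j i := ⟨_, rfl⟩
  have hRc : ∀ j, (q : ℝ) * (∑ i, (b j i - a j i)) - 2 * k ≤ (R j).card := by
    intro j
    rw [hR]
    exact cells_union hq1 (ha j) (hab j) (hb j) (hdis j)
  have hRq : ∀ j, ((R j).card : ℝ) ≤ q := by
    intro j
    have h1 : (R j).card ≤ q := by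
      rw [hR]
      exact (card_filter_le _ _).trans (by rw [card_range])
    exact_mod_cast h1
  obtain ⟨T, hT⟩ : ∃ T : Finset (Fin s → ℕ), T = Fintype.piFinset R := ⟨_, rfl⟩
  have hTc : (T.card : ℝ) = ∏ j, ((R j).card : ℝ) := by
    rw [hT, Fintype.card_piFinset]
    push_cast
    rfl
  obtain ⟨cell, hcell⟩ : ∃ cell : (Fin s → ℕ) → Finset ℕ, cell = fun ρ => S.filter fun n =>
    ∀ j, ((ρ j : ℕ) : ℝ) / q ≤ Int.fract (y n j) ∧ Int.fract (y n j) < ((ρ j : ℕ) + 1) / q := ⟨_, rfl⟩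
  have hsub : T.biUnion cell ⊆ S.filter fun n => ∀ j, ∃ i, a j i < Int.fract (y n j) ∧
      Int.fract (y n j) < b j i := by
    intro n hn
    rw [mem_biUnion] at hn
    obtain ⟨ρ, hρ, hn⟩ := hn
    rw [hcell, mem_filter] at hn
    rw [hT, Fintype.mem_piFinset] at hρ
    rw [mem_filter]
    refine ⟨hn.1, fun j => ?_⟩
    have h1 := hρ j
    rw [hR, mem_filter] at h1
    obtain ⟨-, i, h2, h3⟩ := h1
    exact ⟨i, h2.trans_le (hn.2 j).1, (hn.2 j).2.trans_le h3⟩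
  have hdisj : ∀ ρ ∈ T, ∀ ρ' ∈ T, ρ ≠ ρ' → Disjoint (cell ρ) (cell ρ') := by
    intro ρ _ ρ' _ hne
    rw [Finset.disjoint_left]
    intro n hn hn'
    apply hne
    rw [hcell, mem_filter] at hn hn'
    funext j
    obtain ⟨h1, h2⟩ := hn.2 j
    obtain ⟨h3, h4⟩ := hn'.2 j
    have h5 : ((ρ j : ℕ) : ℝ) < (ρ' j : ℕ) + 1 := by
      have := h1.trans_lt h4
      rwa [div_lt_div_iff_of_pos_right hq0] at this
    have h6 : ((ρ' j : ℕ) : ℝ) < (ρ j : ℕ) + 1 := by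
      have := h3.trans_lt h2
      rwa [div_lt_div_iff_of_pos_right hq0] at this
    have h7 : ρ j < ρ' j + 1 := by exact_mod_cast h5
    have h8 : ρ' j < ρ j + 1 := by exact_mod_cast h6
    omega
  have hcard : ∑ ρ ∈ T, ((cell ρ).card : ℝ) ≤ ((S.filter fun n => ∀ j, ∃ i, a j i < Int.fract (y n j) ∧
      Int.fract (y n j) < b j i).card : ℝ) := by
    have h1 := card_le_card hsub
    rw [card_biUnion hdisj] at h1
    exact_mod_cast h1
  have hone : ∀ ρ ∈ T, (S.card : ℝ) / (q : ℝ) ^ s - E ≤ ((cell ρ).card : ℝ) := by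
    intro ρ hρ
    have h1 := h q hq1 hqQ (fun j => (ρ j : ℤ)) (by
      intro j
      rw [hT, Fintype.mem_piFinset] at hρ
      have h2 := hρ j
      rw [hR, mem_filter, mem_range] at h2
      exact ⟨by positivity, by exact_mod_cast h2.1⟩)
    have h2 := (abs_le.1 h1).1
    have h3 : (S.filter fun n => ∀ j, (((ρ j : ℕ) : ℤ) : ℝ) / q ≤ Int.fract (y n j) ∧
        Int.fract (y n j) < ((((ρ j : ℕ) : ℤ) : ℝ) + 1) / q) = cell ρ := by
      rw [hcell]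
      ext n
      simp only [mem_filter, Int.cast_natCast]
    rw [h3] at h2
    linarith
  have hsum : (T.card : ℝ) * ((S.card : ℝ) / (q : ℝ) ^ s - E) ≤ ∑ ρ ∈ T, ((cell ρ).card : ℝ) := by
    rw [← nsmul_eq_mul]
    exact card_nsmul_le_sum _ _ _ hone
  have hprod : (∏ j, ∑ i, (b j i - a j i) - s * (2 * k / q)) * (q : ℝ) ^ s ≤ T.card := by
    have h1 := prod_sub (univ : Finset (Fin s)) (fun j => ∑ i, (b j i - a j i)) (fun j => ((R j).card : ℝ) / q)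
      (2 * k / q) (by positivity) hsum0 hsum1 (fun j => by positivity)
      (fun j => by rw [div_le_one hq0]; exact hRq j) (fun j => by
        rw [le_div_iff₀ hq0, sub_mul, div_mul_cancel₀ _ hq0.ne']
        linarith [hRc j])
    rw [card_univ, Fintype.card_fin] at h1
    have h2 : ∏ j, ((R j).card : ℝ) / q = T.card / (q : ℝ) ^ s := by
      rw [prod_div_distrib, prod_const, card_univ, Fintype.card_fin, hTc]
    rw [h2, le_div_iff₀ (by positivity)] at h1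
    exact h1
  have hTq : (T.card : ℝ) ≤ (q : ℝ) ^ s := by
    rw [hTc]
    calc ∏ j, ((R j).card : ℝ) ≤ ∏ _j : Fin s, (q : ℝ) := prod_le_prod (fun j _ => by positivity) fun j _ => hRq j
      _ = _ := by rw [prod_const, card_univ, Fintype.card_fin]
  have hqs : (0 : ℝ) < (q : ℝ) ^ s := by positivity
  have h1 : (∏ j, ∑ i, (b j i - a j i) - s * (2 * k / q)) * S.card ≤ T.card * ((S.card : ℝ) / (q : ℝ) ^ s) := by
    rw [← mul_div_assoc (T.card : ℝ), le_div_iff₀ hqs]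
    calc (∏ j, ∑ i, (b j i - a j i) - s * (2 * k / q)) * S.card * (q : ℝ) ^ s =
        (∏ j, ∑ i, (b j i - a j i) - s * (2 * k / q)) * (q : ℝ) ^ s * S.card := by ring
      _ ≤ _ := mul_le_mul_of_nonneg_right hprod (Nat.cast_nonneg _)
  have h2 : (T.card : ℝ) * E ≤ (q : ℝ) ^ s * E := mul_le_mul_of_nonneg_right hTq hE
  nlinarith

/-- unions of boxes at the scale `M` -/
theorem box_power2 (s k : ℕ) (κ : ℝ) (hκ : 0 < κ) (hκ1 : κ ≤ 1) : ∃ κ' : ℝ, 0 < κ' ∧ κ' ≤ κ ∧ ∃ M₀ : ℕ, 2 ≤ M₀ ∧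
    ∀ M : ℕ, M₀ ≤ M → ∀ (S : Finset ℕ) (y : ℕ → Fin s → ℝ), S.card ≤ M →
    EquiJ S y ((M : ℝ) ^ κ) ((M : ℝ) ^ (1 - κ)) → ∀ a b : Fin s → Fin k → ℝ, (∀ j i, 0 ≤ a j i) →
    (∀ j i, a j i ≤ b j i) → (∀ j i, b j i ≤ 1) → (∀ j i i', i < i' → b j i ≤ a j i') →
    (∀ j, ∑ i, (b j i - a j i) ≤ 1) →
    ∀ U : Finset ℕ, (∀ n ∈ S, (∀ j, ∃ i, a j i < Int.fract (y n j) ∧ Int.fract (y n j) < b j i) → n ∉ U) → U ⊆ S →
      (U.card : ℝ) ≤ (1 - ∏ j, ∑ i, (b j i - a j i)) * S.card + (M : ℝ) ^ (1 - κ') := by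
  classical
  obtain ⟨c, hc⟩ : ∃ c : ℝ, c = κ / (2 * (s + 1)) := ⟨_, rfl⟩
  have hs0 : (0 : ℝ) ≤ s := Nat.cast_nonneg s
  have hk0 : (0 : ℝ) ≤ k := Nat.cast_nonneg k
  have hc0 : 0 < c := by rw [hc]; positivity
  have hcs : c * s + c = κ / 2 := by
    rw [hc]
    field_simp
  have hcκ : c ≤ κ := by nlinarith [mul_nonneg hc0.le hs0]
  obtain ⟨M₁, hM₁1, hM₁⟩ := ev_rpow (c / 2) (4 * s * k + 2) (by positivity)
  refine ⟨c / 2, by positivity, by linarith, max M₁ 2, le_max_right _ _,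
    fun M hM S y hSM h a b ha hab hb hdis hsum1 U hU hUS => ?_⟩
  have hbig := hM₁ M ((le_max_left _ _).trans hM)
  have hMpos : 1 ≤ M := hM₁1.trans ((le_max_left _ _).trans hM)
  have hM1 : (1 : ℝ) ≤ M := by exact_mod_cast hMpos
  have hM0 : (0 : ℝ) < M := by linarith
  obtain ⟨Y, hY⟩ : ∃ Y : ℝ, Y = (M : ℝ) ^ c := ⟨_, rfl⟩
  have hY1 : 1 ≤ Y := by
    rw [hY]
    exact Real.one_le_rpow hM1 hc0.le
  obtain ⟨q, hq⟩ : ∃ q : ℕ, q = ⌊Y⌋₊ := ⟨_, rfl⟩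
  have hq1 : 1 ≤ q := by
    rw [hq]
    exact Nat.le_floor (by exact_mod_cast hY1)
  have hqY : (q : ℝ) ≤ Y := by
    rw [hq]
    exact Nat.floor_le (by linarith)
  have hqY2 : Y / 2 ≤ q := by
    have h1 := Nat.lt_floor_add_one Y
    rw [← hq] at h1
    have h2 : (1 : ℝ) ≤ q := by exact_mod_cast hq1
    linarith
  have hq0 : (0 : ℝ) < q := by exact_mod_cast hq1
  have h1 := box_lower2 S y _ _ (by positivity) h q hq1 (hqY.trans (by
    rw [hY]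
    exact Real.rpow_le_rpow_of_exponent_le hM1 hcκ)) a b ha hab hb hdis
    (fun j => sum_nonneg fun i _ => by linarith [hab j i]) hsum1
  have h2 : U.card + (S.filter fun n => ∀ j, ∃ i, a j i < Int.fract (y n j) ∧
      Int.fract (y n j) < b j i).card ≤ S.card := by
    rw [← card_union_of_disjoint]
    · apply card_le_card
      intro n hn
      rcases mem_union.1 hn with hn | hn
      · exact hUS hn
      · exact (mem_filter.1 hn).1
    · rw [Finset.disjoint_left]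
      intro n hn hn'
      rw [mem_filter] at hn'
      exact hU n hn'.1 hn'.2 hn
  have h3 : (U.card : ℝ) + ((S.filter fun n => ∀ j, ∃ i, a j i < Int.fract (y n j) ∧
      Int.fract (y n j) < b j i).card : ℝ) ≤ S.card := by
    exact_mod_cast h2
  have h4 : (s : ℝ) * (2 * k / q) * S.card ≤ 4 * s * k * (M : ℝ) ^ (1 - c) := by
    have e1 : (M : ℝ) ^ (1 - c) * Y = M := by
      rw [hY, ← Real.rpow_add hM0]
      simp
    have h5 : (S.card : ℝ) ≤ M := by exact_mod_cast hSM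
    rw [mul_div_assoc', div_mul_eq_mul_div, div_le_iff₀ hq0]
    calc (s : ℝ) * (2 * k) * S.card ≤ s * (2 * k) * M := mul_le_mul_of_nonneg_left h5 (by positivity)
      _ = s * (2 * k) * ((M : ℝ) ^ (1 - c) * Y) := by rw [e1]
      _ = 4 * s * k * (M : ℝ) ^ (1 - c) * (Y / 2) := by ring
      _ ≤ 4 * s * k * (M : ℝ) ^ (1 - c) * q := mul_le_mul_of_nonneg_left hqY2 (by positivity)
  have h5 : (q : ℝ) ^ s * (M : ℝ) ^ (1 - κ) ≤ (M : ℝ) ^ (1 - c) := by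
    calc (q : ℝ) ^ s * (M : ℝ) ^ (1 - κ) ≤ Y ^ s * (M : ℝ) ^ (1 - κ) :=
          mul_le_mul_of_nonneg_right (pow_le_pow_left₀ hq0.le hqY s) (by positivity)
      _ = (M : ℝ) ^ (c * s + (1 - κ)) := by
          rw [hY, ← Real.rpow_natCast, ← Real.rpow_mul hM0.le, ← Real.rpow_add hM0]
      _ ≤ _ := by
          apply Real.rpow_le_rpow_of_exponent_le hM1
          linarith
  have h6 : (4 * s * k + 1) * (M : ℝ) ^ (1 - c) ≤ (M : ℝ) ^ (1 - c / 2) := by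
    have e1 : (M : ℝ) ^ (1 - c / 2) = (M : ℝ) ^ (c / 2) * (M : ℝ) ^ (1 - c) := by
      rw [← Real.rpow_add hM0]
      congr 1
      ring
    rw [e1]
    apply mul_le_mul_of_nonneg_right _ (by positivity)
    linarith
  have h7 : (∏ j, ∑ i, (b j i - a j i) - s * (2 * k / q)) * S.card =
      (∏ j, ∑ i, (b j i - a j i)) * S.card - s * (2 * k / q) * S.card := by ring
  rw [h7] at h1
  nlinarith

end Pool.Agent.H46.SD
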