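import Pool.Graph.R_pool_sql_team_seeded_2aa45f1a.Q54.FM.Inp
import Pool.Graph.R_pool_sql_team_seeded_63374d34.N388.EFW.Final
import Pool.Graph.R_pool_sql_team_seeded_63374d34.N388.EF.TEST2
import Pool.Graph.R_pool_sql_team_seeded_620a6dc7.H209.SW.Fin2
import Pool.Graph.R_pool_sql_team_seeded_35f281b4.K7.H2.FO.FinalE

set_option autoImplicit false

/-!
# The shortest windows of open degrees

For the numbers `r` of points in `L20` and multiplicities `m ≥ 43` the degree `d` is open only if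
`- wl r / 1000 < 2 d + 3 - √r (2 m + 1) < wu r / 1000`. Each end is the better one of two earlier results.
-/

namespace Pool.Agent.H46.SD

open Finset

/-- the open numbers of points but `11` and `15` -/
def L20 : List ℕ := [10, 12, 14, 17, 18, 19, 20, 22, 23, 24, 26, 27, 28, 29, 30, 31, 32, 33, 34, 35]

/-- 1000 times the lower end of the window -/
def wl : ℕ → ℕ
  | 10 => 163 | 12 => 155 | 14 => 219 | 17 => 489 | 18 => 334 | 19 => 523 | 20 => 513 | 22 => 462 | 23 => 299
  | 24 => 403 | 26 => 518 | 27 => 532 | 28 => 423 | 29 => 387 | 30 => 424 | 31 => 442 | 32 => 340 | 33 => 443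
  | 34 => 452 | 35 => 394 | _ => 0

/-- 1000 times the upper end of the window -/
def wu : ℕ → ℕ
  | 10 => 130 | 12 => 108 | 14 => 106 | 17 => 155 | 18 => 187 | 19 => 304 | 20 => 153 | 22 => 420 | 23 => 220
  | 24 => 276 | 26 => 299 | 27 => 249 | 28 => 417 | 29 => 377 | 30 => 244 | 31 => 308 | 32 => 322 | 33 => 208
  | 34 => 165 | 35 => 165 | _ => 0

/-- the statement of the windows -/
def WinAt (r m : ℕ) : Prop :=
  ∃ F : MvPolynomial (Fin r × Fin 2) ℚ, F ≠ 0 ∧ ∀ P : Fin r → Fin 2 → ℂ,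
    MvPolynomial.aeval (fun ij : Fin r × Fin 2 => P ij.1 ij.2) F ≠ 0 →
    ∀ d : ℕ, (2 * (d : ℝ) + 3 - Real.sqrt r * (2 * m + 1) < -((wl r : ℝ) / 1000) ∨
      (wu r : ℝ) / 1000 < 2 * (d : ℝ) + 3 - Real.sqrt r * (2 * m + 1)) → H932R3.ExpDim ℂ (fun _ => m) P d

/-- from the first table -/
theorem win1 {r m a b : ℕ} (h : (r, a, b) ∈ ([(10, 163, 130), (12, 310, 310), (14, 445, 434), (17, 489, 242),
      (18, 334, 334), (19, 523, 304), (20, 513, 153), (22, 462, 462), (23, 299, 231), (24, 403, 276),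
      (26, 518, 323), (27, 532, 249), (28, 423, 417), (29, 387, 380), (30, 424, 244), (31, 442, 308),
      (32, 340, 322), (33, 443, 208), (34, 452, 165), (35, 394, 165)] : List (ℕ × ℕ × ℕ))) (hm : 8 ≤ m) :
    ∃ F : MvPolynomial (Fin r × Fin 2) ℚ, F ≠ 0 ∧ ∀ P : Fin r → Fin 2 → ℂ,
      MvPolynomial.aeval (fun ij : Fin r × Fin 2 => P ij.1 ij.2) F ≠ 0 →
      ∀ d : ℕ, (2 * (d : ℝ) + 3 - Real.sqrt r * (2 * m + 1) < -((a : ℝ) / 1000) ∨
        (b : ℝ) / 1000 < 2 * (d : ℝ) + 3 - Real.sqrt r * (2 * m + 1)) → H932R3.ExpDim ℂ (fun _ => m) P d := by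
  obtain ⟨F, hF, hF'⟩ := H209.SW.uniformW2 (H209.SW.good2_of_mem h) hm
  refine ⟨F, hF, fun P hP d hd => hF' P hP d ?_⟩
  rcases hd with hd | hd
  · left
    linarith
  · right
    linarith

/-- two results together -/
theorem win2 {r m : ℕ} {a b a' b' : ℝ}
    (h : ∃ F : MvPolynomial (Fin r × Fin 2) ℚ, F ≠ 0 ∧ ∀ P : Fin r → Fin 2 → ℂ,
      MvPolynomial.aeval (fun ij : Fin r × Fin 2 => P ij.1 ij.2) F ≠ 0 →
      ∀ d : ℕ, (2 * (d : ℝ) + 3 - Real.sqrt r * (2 * m + 1) < -a ∨
        b < 2 * (d : ℝ) + 3 - Real.sqrt r * (2 * m + 1)) → H932R3.ExpDim ℂ (fun _ => m) P d)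
    (h' : ∃ F : MvPolynomial (Fin r × Fin 2) ℚ, F ≠ 0 ∧ ∀ P : Fin r → Fin 2 → ℂ,
      MvPolynomial.aeval (fun ij : Fin r × Fin 2 => P ij.1 ij.2) F ≠ 0 →
      ∀ d : ℕ, (2 * (d : ℝ) + 3 - Real.sqrt r * (2 * m + 1) < -a' ∨
        b' < 2 * (d : ℝ) + 3 - Real.sqrt r * (2 * m + 1)) → H932R3.ExpDim ℂ (fun _ => m) P d)
    (hl : min a a' ≤ (wl r : ℝ) / 1000) (hu : min b b' ≤ (wu r : ℝ) / 1000) : WinAt r m := by
  obtain ⟨F, hF, hF'⟩ := h
  obtain ⟨G, hG, hG'⟩ := h'
  refine ⟨F * G, mul_ne_zero hF hG, fun P hP d hd => ?_⟩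
  rw [map_mul] at hP
  have h1 := hF' P (left_ne_zero_of_mul hP) d
  have h2 := hG' P (right_ne_zero_of_mul hP) d
  rcases hd with hd | hd
  · rcases min_le_iff.1 hl with h3 | h3
    · exact h1 (Or.inl (by linarith))
    · exact h2 (Or.inl (by linarith))
  · rcases min_le_iff.1 hu with h3 | h3
    · exact h1 (Or.inr (by linarith))
    · exact h2 (Or.inr (by linarith))

theorem sq3 {r : ℕ} (hr : 10 ≤ r) : 0 ≤ Real.sqrt r - 3 := by
  have := Pool.Agent.Q54.FM.sqrt_ge hr
  linarith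

/-- the upper ends of the second table -/
theorem win_new {r m : ℕ} (hr : 10 ≤ r) (hsq : ¬ IsSquare r) (hm : 1 ≤ m) :
    ∃ F : MvPolynomial (Fin r × Fin 2) ℚ, F ≠ 0 ∧ ∀ P : Fin r → Fin 2 → ℂ,
      MvPolynomial.aeval (fun ij : Fin r × Fin 2 => P ij.1 ij.2) F ≠ 0 →
      ∀ d : ℕ, (2 * (d : ℝ) + 3 - Real.sqrt r * (2 * m + 1) < -(Real.sqrt r - 3) ∨
        ((K7.H2.FO.thr r : ℝ) / 500 - 1) * (Real.sqrt r - 3) < 2 * (d : ℝ) + 3 - Real.sqrt r * (2 * m + 1)) →
        H932R3.ExpDim ℂ (fun _ => m) P d := by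
  obtain ⟨F, hF, hF'⟩ := K7.H2.FO.expDim_new (L := ℂ) hr hsq hm
  refine ⟨F, hF, fun P hP d hd => hF' P hP d ?_⟩
  rcases hd with hd | hd
  · left
    have := min_le_left (Real.sqrt r - 3) (2 / 3 + 9 / (4 * Real.sqrt r))
    linarith
  · right
    right
    linarith

/-- the lower ends of the second table -/
theorem win_newE {r m : ℕ} (hr : r ∈ K7.H2.FO.listE) (hm : 43 ≤ m) :
    ∃ F : MvPolynomial (Fin r × Fin 2) ℚ, F ≠ 0 ∧ ∀ P : Fin r → Fin 2 → ℂ,
      MvPolynomial.aeval (fun ij : Fin r × Fin 2 => P ij.1 ij.2) F ≠ 0 →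
      ∀ d : ℕ, (2 * (d : ℝ) + 3 - Real.sqrt r * (2 * m + 1) < -((1 - (K7.H2.FO.thrE r : ℝ) / 5000) * (Real.sqrt r - 3)) ∨
        ((K7.H2.FO.thr r : ℝ) / 500 - 1) * (Real.sqrt r - 3) < 2 * (d : ℝ) + 3 - Real.sqrt r * (2 * m + 1)) →
        H932R3.ExpDim ℂ (fun _ => m) P d := by
  obtain ⟨F, hF, hF'⟩ := K7.H2.FO.expDim_newE (L := ℂ) hr hm
  refine ⟨F, hF, fun P hP d hd => hF' P hP d ?_⟩
  rcases hd with hd | hd
  · left
    linarith
  · right
    right
    linarith

theorem thr_le {r c u : ℕ} {x : ℝ} (hx : (r : ℝ) ≤ x * x) (hx0 : 0 ≤ x) (h1 : K7.H2.FO.thr r = c) (hc : 500 ≤ c)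
    (h2 : ((c : ℝ) / 500 - 1) * (x - 3) ≤ u / 1000) :
    ((K7.H2.FO.thr r : ℝ) / 500 - 1) * (Real.sqrt r - 3) ≤ (u : ℝ) / 1000 := by
  have h5 : Real.sqrt r ≤ x := Real.sqrt_le_iff.2 ⟨hx0, by rw [pow_two]; exact hx⟩
  have hcR : (500 : ℝ) ≤ c := by exact_mod_cast hc
  rw [h1]
  have h6 : ((c : ℝ) / 500 - 1) * (Real.sqrt r - 3) ≤ ((c : ℝ) / 500 - 1) * (x - 3) :=
    mul_le_mul_of_nonneg_left (by linarith) (by linarith)
  linarith

theorem thrE_le {r c l : ℕ} {x : ℝ} (hx : (r : ℝ) ≤ x * x) (hx0 : 0 ≤ x) (h1 : K7.H2.FO.thrE r = c) (hc : c ≤ 5000)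
    (h2 : (1 - (c : ℝ) / 5000) * (x - 3) ≤ l / 1000) :
    (1 - (K7.H2.FO.thrE r : ℝ) / 5000) * (Real.sqrt r - 3) ≤ (l : ℝ) / 1000 := by
  have h5 : Real.sqrt r ≤ x := Real.sqrt_le_iff.2 ⟨hx0, by rw [pow_two]; exact hx⟩
  have hcR : (c : ℝ) ≤ 5000 := by exact_mod_cast hc
  rw [h1]
  have h6 : (1 - (c : ℝ) / 5000) * (Real.sqrt r - 3) ≤ (1 - (c : ℝ) / 5000) * (x - 3) :=
    mul_le_mul_of_nonneg_left (by linarith) (by linarith)
  linarith

/-- **The windows.** -/
theorem winAt {r m : ℕ} (hr : r ∈ L20) (hm : 43 ≤ m) : WinAt r m := by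
  have hm8 : 8 ≤ m := by omega
  have hm1 : 1 ≤ m := by omega
  simp only [L20, List.mem_cons, List.not_mem_nil, or_false] at hr
  rcases hr with rfl | rfl | rfl | rfl | rfl | rfl | rfl | rfl | rfl | rfl | rfl | rfl | rfl | rfl | rfl | rfl |
    rfl | rfl | rfl | rfl
  · exact win2 (win1 (r := 10) (a := 163) (b := 130) (by decide) hm8)
      (win1 (r := 10) (a := 163) (b := 130) (by decide) hm8) (by norm_num [wl]) (by norm_num [wu])
  · exact win2 (win_newE (r := 12) (by decide) hm) (win_newE (r := 12) (by decide) hm)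
      (min_le_of_left_le (thrE_le (x := 3.46411) (c := 3333) (by norm_num) (by norm_num) rfl (by norm_num)
        (by norm_num [wl])))
      (min_le_of_left_le (thr_le (x := 3.46411) (c := 616) (by norm_num) (by norm_num) rfl (by norm_num)
        (by norm_num [wu])))
  · exact win2 (win_newE (r := 14) (by decide) hm) (win_newE (r := 14) (by decide) hm)
      (min_le_of_left_le (thrE_le (x := 3.74166) (c := 3524) (by norm_num) (by norm_num) rfl (by norm_num)
        (by norm_num [wl])))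
      (min_le_of_left_le (thr_le (x := 3.74166) (c := 571) (by norm_num) (by norm_num) rfl (by norm_num)
        (by norm_num [wu])))
  · exact win2 (win1 (r := 17) (a := 489) (b := 242) (by decide) hm8)
      (win_new (r := 17) (by norm_num) (by decide +kernel) hm1) (by norm_num [wl])
      (min_le_of_right_le (thr_le (x := 4.12311) (c := 569) (by norm_num) (by norm_num) rfl (by norm_num)
        (by norm_num [wu])))
  · exact win2 (win1 (r := 18) (a := 334) (b := 334) (by decide) hm8)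
      (win_new (r := 18) (by norm_num) (by decide +kernel) hm1) (by norm_num [wl])
      (min_le_of_right_le (thr_le (x := 4.24265) (c := 575) (by norm_num) (by norm_num) rfl (by norm_num)
        (by norm_num [wu])))
  · exact win2 (win1 (r := 19) (a := 523) (b := 304) (by decide) hm8)
      (win1 (r := 19) (a := 523) (b := 304) (by decide) hm8) (by norm_num [wl]) (by norm_num [wu])
  · exact win2 (win1 (r := 20) (a := 513) (b := 153) (by decide) hm8)
      (win1 (r := 20) (a := 513) (b := 153) (by decide) hm8) (by norm_num [wl]) (by norm_num [wu])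
  · exact win2 (win1 (r := 22) (a := 462) (b := 462) (by decide) hm8)
      (win_new (r := 22) (by norm_num) (by decide +kernel) hm1) (by norm_num [wl])
      (min_le_of_right_le (thr_le (x := 4.69042) (c := 624) (by norm_num) (by norm_num) rfl (by norm_num)
        (by norm_num [wu])))
  · exact win2 (win1 (r := 23) (a := 299) (b := 231) (by decide) hm8)
      (win_new (r := 23) (by norm_num) (by decide +kernel) hm1) (by norm_num [wl])
      (min_le_of_right_le (thr_le (x := 4.79584) (c := 561) (by norm_num) (by norm_num) rfl (by norm_num)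
        (by norm_num [wu])))
  · exact win2 (win1 (r := 24) (a := 403) (b := 276) (by decide) hm8)
      (win1 (r := 24) (a := 403) (b := 276) (by decide) hm8) (by norm_num [wl]) (by norm_num [wu])
  · exact win2 (win1 (r := 26) (a := 518) (b := 323) (by decide) hm8)
      (win_new (r := 26) (by norm_num) (by decide +kernel) hm1) (by norm_num [wl])
      (min_le_of_right_le (thr_le (x := 5.09902) (c := 571) (by norm_num) (by norm_num) rfl (by norm_num)
        (by norm_num [wu])))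
  · exact win2 (win1 (r := 27) (a := 532) (b := 249) (by decide) hm8)
      (win1 (r := 27) (a := 532) (b := 249) (by decide) hm8) (by norm_num [wl]) (by norm_num [wu])
  · exact win2 (win1 (r := 28) (a := 423) (b := 417) (by decide) hm8)
      (win1 (r := 28) (a := 423) (b := 417) (by decide) hm8) (by norm_num [wl]) (by norm_num [wu])
  · exact win2 (win1 (r := 29) (a := 387) (b := 380) (by decide) hm8)
      (win_new (r := 29) (by norm_num) (by decide +kernel) hm1) (by norm_num [wl])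
      (min_le_of_right_le (thr_le (x := 5.38517) (c := 579) (by norm_num) (by norm_num) rfl (by norm_num)
        (by norm_num [wu])))
  · exact win2 (win1 (r := 30) (a := 424) (b := 244) (by decide) hm8)
      (win1 (r := 30) (a := 424) (b := 244) (by decide) hm8) (by norm_num [wl]) (by norm_num [wu])
  · exact win2 (win1 (r := 31) (a := 442) (b := 308) (by decide) hm8)
      (win1 (r := 31) (a := 442) (b := 308) (by decide) hm8) (by norm_num [wl]) (by norm_num [wu])
  · exact win2 (win1 (r := 32) (a := 340) (b := 322) (by decide) hm8)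
      (win1 (r := 32) (a := 340) (b := 322) (by decide) hm8) (by norm_num [wl]) (by norm_num [wu])
  · exact win2 (win1 (r := 33) (a := 443) (b := 208) (by decide) hm8)
      (win1 (r := 33) (a := 443) (b := 208) (by decide) hm8) (by norm_num [wl]) (by norm_num [wu])
  · exact win2 (win1 (r := 34) (a := 452) (b := 165) (by decide) hm8)
      (win1 (r := 34) (a := 452) (b := 165) (by decide) hm8) (by norm_num [wl]) (by norm_num [wu])
  · exact win2 (win1 (r := 35) (a := 394) (b := 165) (by decide) hm8)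
      (win1 (r := 35) (a := 394) (b := 165) (by decide) hm8) (by norm_num [wl]) (by norm_num [wu])

/-- 11 and 15 points -/
theorem win11 {r : ℕ} (hr : r = 11 ∨ r = 15) (m : ℕ) :
    ∃ F : MvPolynomial (Fin r × Fin 2) ℚ, F ≠ 0 ∧ ∀ P : Fin r → Fin 2 → ℂ,
      MvPolynomial.aeval (fun ij : Fin r × Fin 2 => P ij.1 ij.2) F ≠ 0 →
      ∀ d : ℕ, ¬ (3 ∣ d ∧ 3 * (Real.sqrt r - 3) / (Real.sqrt r + 3) ≤ (d : ℝ) - Real.sqrt r * m ∧
        (d : ℝ) - Real.sqrt r * m < (Real.sqrt r - 3) / 2) → H932R3.ExpDim ℂ (fun _ => m) P d := by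
  obtain ⟨F, hF, hF'⟩ := N388.EFW.uniform N388.EF.t_TEST2 r hr m
  exact ⟨F, hF, fun P hP d hd => hF' P hP d hd⟩

end Pool.Agent.H46.SD
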