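import Pool.Agent.H46.SD.Seq
import Pool.Agent.H46.SD.Win
import Pool.Graph.R_pool_sql_team_seeded_2aa45f1a.Q54.FM.DegFin

set_option autoImplicit false

/-!
# Degrees in which everything is as expected, for all numbers of points and all multiplicities

One degree in four.
-/

namespace Pool.Agent.H46.SD

open Finset Polynomial Pool.Agent.Q29.Eqd Pool.Agent.Q54.FM

/-- What is known on the degrees `d` in which `D r d` holds. -/
def DIn (D : ℕ → ℕ → Prop) : Prop :=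
  (∀ r ∈ L20, ∀ d : ℕ, 300 ≤ d → ¬ D r d → ∃ m : ℕ,
    -((wl r : ℝ) / 1000) ≤ 2 * (d : ℝ) + 3 - Real.sqrt r * (2 * m + 1) ∧
    2 * (d : ℝ) + 3 - Real.sqrt r * (2 * m + 1) ≤ (wu r : ℝ) / 1000) ∧
  (∀ r : ℕ, r = 11 ∨ r = 15 → ∀ d : ℕ, ¬ D r d → ∃ m : ℕ,
    3 * (Real.sqrt r - 3) / (Real.sqrt r + 3) ≤ (d : ℝ) - Real.sqrt r * m ∧
    (d : ℝ) - Real.sqrt r * m < (Real.sqrt r - 3) / 2) ∧
  (∀ r d : ℕ, 37 ≤ r ∨ r = 13 ∨ r = 21 ∨ (10 ≤ r ∧ IsSquare r) → 0 < d → D r d)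

lemma L20_le : ∀ r ∈ L20, 10 ≤ r ∧ r ≤ 36 := by decide

lemma DIn.mono {D D' : ℕ → ℕ → Prop} (hD : DIn D) (h : ∀ r d : ℕ, 10 ≤ r → 0 < d → D r d → D' r d) (h11 : ∀ r : ℕ,
    r = 11 ∨ r = 15 → ∀ d : ℕ, D r d → D' r d) : DIn D' := by
  refine ⟨fun r hr d hd hn => hD.1 r hr d hd fun hg => hn (h r d (L20_le r hr).1 (by omega) hg),
    fun r hr d hn => hD.2.1 r hr d fun hg => hn (h11 r hr d hg), fun r d hr hd => ?_⟩
  refine h r d ?_ hd (hD.2.2 r d hr hd)
  rcases hr with hr | hr | hr | hr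
  · omega
  · omega
  · omega
  · exact hr.1

theorem dIn : DIn fun r d => ∀ m : ℕ, 1 ≤ m → ED r m d := by
  refine ⟨fun r hr d hd hbad => ?_, fun r hr d hbad => ?_, fun r d hr hd m hm => ?_⟩
  · push Not at hbad
    obtain ⟨m, hm, hbad⟩ := hbad
    obtain ⟨hr10, hr36⟩ := L20_le r hr
    rcases Nat.lt_or_ge m 43 with hm43 | hm43
    · exfalso
      apply hbad
      obtain ⟨F, hF, hF'⟩ := TH885.NW.exp_uni2 (L := ℂ) hr10 hm
      refine ⟨F, hF, fun P hP => hF' P hP d (Or.inl ?_)⟩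
      have h1 : Real.sqrt r ≤ 6 := by
        rw [Real.sqrt_le_left (by norm_num)]
        have : (r : ℝ) ≤ 36 := by exact_mod_cast hr36
        linarith
      have h2 : TH885.NW.upW r ≤ Real.sqrt r - 3 := min_le_left _ _
      have h3 : (m : ℝ) ≤ 42 := by exact_mod_cast (by omega : m ≤ 42)
      have h4 : (300 : ℝ) ≤ d := by exact_mod_cast hd
      have h5 : 0 ≤ Real.sqrt r := Real.sqrt_nonneg _
      have h6 : 0 ≤ (m : ℝ) := Nat.cast_nonneg m
      nlinarith
    · refine ⟨m, ?_⟩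
      by_contra hcon
      apply hbad
      obtain ⟨F, hF, hF'⟩ := winAt hr hm43
      refine ⟨F, hF, fun P hP => hF' P hP d ?_⟩
      rcases lt_or_ge (2 * (d : ℝ) + 3 - Real.sqrt r * (2 * m + 1)) (-((wl r : ℝ) / 1000)) with h | h
      · exact Or.inl h
      · right
        by_contra h2
        push Not at h2
        exact hcon ⟨h, h2⟩
  · push Not at hbad
    obtain ⟨m, hm, hbad⟩ := hbad
    refine ⟨m, ?_⟩
    by_contra hcon
    apply hbad
    obtain ⟨F, hF, hF'⟩ := win11 hr m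
    exact ⟨F, hF, fun P hP => hF' P hP d fun h => hcon h.2⟩
  · obtain ⟨F, hF, hF'⟩ := all_of hm hr
    exact ⟨F, hF, fun P hP => hF' P hP d⟩

/-- the good intervals for `12` and `27` -/
noncomputable def a12 : Fin 8 → ℝ := ![0, 0.02753, 0.11765, 0.36086, 0.61765, 0.69420, 1, 1]

noncomputable def b12 : Fin 8 → ℝ := ![0.01487, 0.08006, 0.34820, 0.58006, 0.68153, 1, 1, 1]

/-- the good intervals for `18` and `32` -/
noncomputable def a18 : Fin 8 → ℝ := ![0, 0.04213, 0.08777, 0.29213, 0.42110, 0.54213, 0.75444, 0.79213]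

noncomputable def b18 : Fin 8 → ℝ := ![0.02677, 0.06826, 0.27677, 0.40159, 0.52677, 0.73492, 0.77677, 1]

lemma dclass12 {D : ℕ → ℕ → Prop} (hD : DIn D) {d : ℕ} (hd : 300 ≤ d)
    (h : ∃ i, a12 i < Int.fract ((d : ℝ) / Real.sqrt (108 : ℕ) + 0) ∧
      Int.fract ((d : ℝ) / Real.sqrt (108 : ℕ) + 0) < b12 i) : D 12 d ∧ D 27 d := by
  obtain ⟨s, hs⟩ : ∃ s, s = Real.sqrt ((3 : ℕ) : ℝ) := ⟨_, rfl⟩
  obtain ⟨b1, b2⟩ := three_bounds
  rw [← hs] at b1 b2
  have hs0 : 0 < s := by linarith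
  have e108 : Real.sqrt ((108 : ℕ) : ℝ) = 6 * s := by
    have := sqrt_mul_sq 3 6
    norm_num at this ⊢
    rw [this, hs]
    norm_num
  rw [e108, add_zero] at h
  obtain ⟨y, hy⟩ : ∃ y, y = (d : ℝ) / (6 * s) := ⟨_, rfl⟩
  have hdy : (d : ℝ) = 6 * s * y := by
    rw [hy]
    field_simp
  rw [← hy] at h
  obtain ⟨F, hF⟩ : ∃ F : ℤ, F = ⌊y⌋ := ⟨_, rfl⟩
  obtain ⟨f, hf⟩ : ∃ f : ℝ, f = Int.fract y := ⟨_, rfl⟩
  have h1 := Int.self_sub_floor y
  have h2 := Int.fract_lt_one y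
  have h3 := Int.fract_nonneg y
  rw [← hF, ← hf] at h1
  rw [← hf] at h h2 h3
  have e12 : Real.sqrt ((12 : ℕ) : ℝ) = 2 * s := by
    have := sqrt_mul_sq 3 2
    norm_num at this ⊢
    rw [this, hs]
    norm_num
  have e27 : Real.sqrt ((27 : ℕ) : ℝ) = 3 * s := by
    have := sqrt_mul_sq 3 3
    norm_num at this ⊢
    rw [this, hs]
    norm_num
  obtain ⟨i, hi1, hi2⟩ := h
  constructor
  · by_contra hcon
    obtain ⟨m, hm1, hm2⟩ := hD.1 12 (by decide) d hd hcon
    rw [e12, hdy] at hm1 hm2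
    norm_num [wl, wu] at hm1 hm2
    have g1 : 0.04461 ≤ 3 * y - m := by
      by_contra hc
      push Not at hc
      have h6 := mul_lt_mul_of_pos_left hc hs0
      nlinarith
    have g2 : 3 * y - m ≤ 0.08258 := by
      by_contra hc
      push Not at hc
      have h6 := mul_lt_mul_of_pos_left hc hs0
      nlinarith
    obtain ⟨z, hz⟩ : ∃ z : ℤ, z = (m : ℤ) - 3 * F := ⟨_, rfl⟩
    have hzR : (z : ℝ) = m - 3 * F := by rw [hz]; push_cast; ring
    have hz0 : -1 < z := by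
      have : (-1 : ℝ) < z := by rw [hzR]; linarith
      exact_mod_cast this
    have hz3 : z < 3 := by
      have : (z : ℝ) < 3 := by rw [hzR]; linarith
      exact_mod_cast this
    have g3 : 0.04461 ≤ 3 * f - z := by rw [hzR]; linarith
    have g4 : 3 * f - z ≤ 0.08258 := by rw [hzR]; linarith
    clear hz hzR
    interval_cases z <;> push_cast at g3 g4 <;> fin_cases i <;> simp [a12, b12] at hi1 hi2 <;> linarith
  · by_contra hcon
    obtain ⟨m, hm1, hm2⟩ := hD.1 27 (by decide) d hd hcon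
    rw [e27, hdy] at hm1 hm2
    norm_num [wl, wu] at hm1 hm2
    have g1 : 0.16013 ≤ 2 * y - m := by
      by_contra hc
      push Not at hc
      have h6 := mul_lt_mul_of_pos_left hc hs0
      nlinarith
    have g2 : 2 * y - m ≤ 0.23529 := by
      by_contra hc
      push Not at hc
      have h6 := mul_lt_mul_of_pos_left hc hs0
      nlinarith
    obtain ⟨z, hz⟩ : ∃ z : ℤ, z = (m : ℤ) - 2 * F := ⟨_, rfl⟩
    have hzR : (z : ℝ) = m - 2 * F := by rw [hz]; push_cast; ring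
    have hz0 : -1 < z := by
      have : (-1 : ℝ) < z := by rw [hzR]; linarith
      exact_mod_cast this
    have hz3 : z < 2 := by
      have : (z : ℝ) < 2 := by rw [hzR]; linarith
      exact_mod_cast this
    have g3 : 0.16013 ≤ 2 * f - z := by rw [hzR]; linarith
    have g4 : 2 * f - z ≤ 0.23529 := by rw [hzR]; linarith
    clear hz hzR
    interval_cases z <;> push_cast at g3 g4 <;> fin_cases i <;> simp [a12, b12] at hi1 hi2 <;> linarith

lemma dclass18 {D : ℕ → ℕ → Prop} (hD : DIn D) {d : ℕ} (hd : 300 ≤ d)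
    (h : ∃ i, a18 i < Int.fract ((d : ℝ) / Real.sqrt (288 : ℕ) + 0) ∧
      Int.fract ((d : ℝ) / Real.sqrt (288 : ℕ) + 0) < b18 i) : D 18 d ∧ D 32 d := by
  obtain ⟨s, hs⟩ : ∃ s, s = Real.sqrt ((2 : ℕ) : ℝ) := ⟨_, rfl⟩
  obtain ⟨b1, b2⟩ := two_bounds
  rw [← hs] at b1 b2
  have hs0 : 0 < s := by linarith
  have e288 : Real.sqrt ((288 : ℕ) : ℝ) = 12 * s := by
    have := sqrt_mul_sq 2 12
    norm_num at this ⊢
    rw [this, hs]
    norm_num
  rw [e288, add_zero] at h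
  obtain ⟨y, hy⟩ : ∃ y, y = (d : ℝ) / (12 * s) := ⟨_, rfl⟩
  have hdy : (d : ℝ) = 12 * s * y := by
    rw [hy]
    field_simp
  rw [← hy] at h
  obtain ⟨F, hF⟩ : ∃ F : ℤ, F = ⌊y⌋ := ⟨_, rfl⟩
  obtain ⟨f, hf⟩ : ∃ f : ℝ, f = Int.fract y := ⟨_, rfl⟩
  have h1 := Int.self_sub_floor y
  have h2 := Int.fract_lt_one y
  have h3 := Int.fract_nonneg y
  rw [← hF, ← hf] at h1
  rw [← hf] at h h2 h3
  have e18 : Real.sqrt ((18 : ℕ) : ℝ) = 3 * s := by
    have := sqrt_mul_sq 2 3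
    norm_num at this ⊢
    rw [this, hs]
    norm_num
  have e32 : Real.sqrt ((32 : ℕ) : ℝ) = 4 * s := by
    have := sqrt_mul_sq 2 4
    norm_num at this ⊢
    rw [this, hs]
    norm_num
  obtain ⟨i, hi1, hi2⟩ := h
  constructor
  · by_contra hcon
    obtain ⟨m, hm1, hm2⟩ := hD.1 18 (by decide) d hd hcon
    rw [e18, hdy] at hm1 hm2
    norm_num [wl, wu] at hm1 hm2
    have g1 : 0.10708 ≤ 4 * y - m := by
      by_contra hc
      push Not at hc
      have h6 := mul_lt_mul_of_pos_left hc hs0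
      nlinarith
    have g2 : 4 * y - m ≤ 0.16849 := by
      by_contra hc
      push Not at hc
      have h6 := mul_lt_mul_of_pos_left hc hs0
      nlinarith
    obtain ⟨z, hz⟩ : ∃ z : ℤ, z = (m : ℤ) - 4 * F := ⟨_, rfl⟩
    have hzR : (z : ℝ) = m - 4 * F := by rw [hz]; push_cast; ring
    have hz0 : -1 < z := by
      have : (-1 : ℝ) < z := by rw [hzR]; linarith
      exact_mod_cast this
    have hz3 : z < 4 := by
      have : (z : ℝ) < 4 := by rw [hzR]; linarith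
      exact_mod_cast this
    have g3 : 0.10708 ≤ 4 * f - z := by rw [hzR]; linarith
    have g4 : 4 * f - z ≤ 0.16849 := by rw [hzR]; linarith
    clear hz hzR
    interval_cases z <;> push_cast at g3 g4 <;> fin_cases i <;> simp [a18, b18] at hi1 hi2 <;> linarith
  · by_contra hcon
    obtain ⟨m, hm1, hm2⟩ := hD.1 32 (by decide) d hd hcon
    rw [e32, hdy] at hm1 hm2
    norm_num [wl, wu] at hm1 hm2
    have g1 : 0.20478 ≤ 3 * y - m := by
      by_contra hc
      push Not at hc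
      have h6 := mul_lt_mul_of_pos_left hc hs0
      nlinarith
    have g2 : 3 * y - m ≤ 0.26330 := by
      by_contra hc
      push Not at hc
      have h6 := mul_lt_mul_of_pos_left hc hs0
      nlinarith
    obtain ⟨z, hz⟩ : ∃ z : ℤ, z = (m : ℤ) - 3 * F := ⟨_, rfl⟩
    have hzR : (z : ℝ) = m - 3 * F := by rw [hz]; push_cast; ring
    have hz0 : -1 < z := by
      have : (-1 : ℝ) < z := by rw [hzR]; linarith
      exact_mod_cast this
    have hz3 : z < 3 := by
      have : (z : ℝ) < 3 := by rw [hzR]; linarith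
      exact_mod_cast this
    have g3 : 0.20478 ≤ 3 * f - z := by rw [hzR]; linarith
    have g4 : 3 * f - z ≤ 0.26330 := by rw [hzR]; linarith
    clear hz hzR
    interval_cases z <;> push_cast at g3 g4 <;> fin_cases i <;> simp [a18, b18] at hi1 hi2 <;> linarith

end Pool.Agent.H46.SD
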