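import Pool.Agent.H46.SD.Deg

set_option autoImplicit false

/-!
# One degree in four
-/

namespace Pool.Agent.H46.SD

open Finset Polynomial Pool.Agent.Q29.Eqd Pool.Agent.Q54.FM

/-- the shifts -/
noncomputable def g2 (r : ℕ) : ℝ :=
  if r = 12 then 0 else if r = 18 then 0 else
  if r = 11 ∨ r = 15 then -(3 * (Real.sqrt r - 3) / (Real.sqrt r + 3) / Real.sqrt r) else
  (3 + (wl r : ℝ) / 1000) / (2 * Real.sqrt r) - 1 / 2

/-- the lengths of the single windows -/
noncomputable def l2 (r : ℕ) : ℝ :=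
  if r = 11 ∨ r = 15 then (Real.sqrt r - 3) ^ 2 / (2 * Real.sqrt r * (Real.sqrt r + 3)) else
  ((wl r : ℝ) / 1000 + (wu r : ℝ) / 1000) / (2 * Real.sqrt r)

/-- the left ends of the good intervals -/
noncomputable def aa (r : ℕ) (i : Fin 8) : ℝ :=
  if r = 12 then a12 i else if r = 18 then a18 i else if i = 0 then l2 r else 1

/-- the right ends of the good intervals -/
noncomputable def bb (r : ℕ) (i : Fin 8) : ℝ :=
  if r = 12 then b12 i else if r = 18 then b18 i else 1

/-- lower bounds for the proportions of good degrees -/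
def lowd (r : ℕ) : ℚ :=
  if r = 10 then 95367 / 100000 else if r = 11 then 99760 / 100000 else if r = 12 then 88683 / 100000 else
  if r = 14 then 95657 / 100000 else if r = 15 then 98568 / 100000 else if r = 17 then 92190 / 100000 else
  if r = 18 then 88002 / 100000 else if r = 19 then 90513 / 100000 else if r = 20 then 92553 / 100000 else
  if r = 22 then 90597 / 100000 else if r = 23 then 94589 / 100000 else if r = 24 then 93069 / 100000 else
  if r = 26 then 91988 / 100000 else if r = 28 then 92062 / 100000 else if r = 29 then 92906 / 100000 else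
  if r = 30 then 93902 / 100000 else if r = 31 then 93264 / 100000 else if r = 33 then 94333 / 100000 else
  if r = 34 then 94709 / 100000 else 95275 / 100000

lemma lw {r : ℕ} {p c : ℝ} (hp0 : 0 < p) (hp : p ^ 2 ≤ (r : ℝ)) (h11 : ¬ (r = 11 ∨ r = 15))
    (hc : 1 - ((wl r : ℝ) / 1000 + (wu r : ℝ) / 1000) / (2 * p) ≥ c) : c ≤ 1 - l2 r := by
  unfold l2
  rw [if_neg h11]
  have h1 : p ≤ Real.sqrt r := Real.le_sqrt_of_sq_le hp
  have h2 : ((wl r : ℝ) / 1000 + (wu r : ℝ) / 1000) / (2 * Real.sqrt r) ≤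
      ((wl r : ℝ) / 1000 + (wu r : ℝ) / 1000) / (2 * p) :=
    div_le_div_of_nonneg_left (by positivity) (by positivity) (by linarith)
  linarith

lemma lw11 {r : ℕ} {p q c : ℝ} (hp3 : 3 < p) (hp : p ^ 2 ≤ (r : ℝ)) (hq : (r : ℝ) ≤ q ^ 2) (hq0 : 0 ≤ q)
    (h11 : r = 11 ∨ r = 15) (hc : (q - 3) ^ 2 / (2 * p * (p + 3)) ≤ 1 - c) : c ≤ 1 - l2 r := by
  unfold l2
  rw [if_pos h11]
  have h1 : p ≤ Real.sqrt r := Real.le_sqrt_of_sq_le hp
  have h2 : Real.sqrt r ≤ q := Real.sqrt_le_iff.2 ⟨hq0, hq⟩
  have h3 : (Real.sqrt r - 3) ^ 2 / (2 * Real.sqrt r * (Real.sqrt r + 3)) ≤ (q - 3) ^ 2 / (2 * p * (p + 3)) := by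
    apply div_le_div₀ (by positivity)
    · exact pow_le_pow_left₀ (by linarith) (by linarith) 2
    · positivity
    · apply mul_le_mul (by linarith) (by linarith) (by linarith) (by linarith)
  linarith

lemma lowd_single : ∀ r ∈ T0, r ≠ 12 → r ≠ 18 → (lowd r : ℝ) ≤ 1 - l2 r := by
  intro r hr h12 h18
  simp only [T0, mem_insert, mem_singleton] at hr
  rcases hr with rfl | rfl | rfl | rfl | rfl | rfl | rfl | rfl | rfl | rfl | rfl | rfl | rfl | rfl | rfl | rfl | rfl |
    rfl | rfl | rfl
  · exact lw (p := 3.16227) (by norm_num) (by norm_num) (by norm_num) (by norm_num [lowd, wl, wu])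
  · exact lw11 (p := 3.31662) (q := 3.31663) (by norm_num) (by norm_num) (by norm_num) (by norm_num) (Or.inl rfl)
      (by norm_num [lowd])
  · exact absurd rfl h12
  · exact lw (p := 3.741657) (by norm_num) (by norm_num) (by norm_num) (by norm_num [lowd, wl, wu])
  · exact lw11 (p := 3.87298) (q := 3.87299) (by norm_num) (by norm_num) (by norm_num) (by norm_num) (Or.inr rfl)
      (by norm_num [lowd])
  · exact lw (p := 4.1231) (by norm_num) (by norm_num) (by norm_num) (by norm_num [lowd, wl, wu])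
  · exact absurd rfl h18
  · exact lw (p := 4.35889) (by norm_num) (by norm_num) (by norm_num) (by norm_num [lowd, wl, wu])
  · exact lw (p := 4.47213) (by norm_num) (by norm_num) (by norm_num) (by norm_num [lowd, wl, wu])
  · exact lw (p := 4.69041) (by norm_num) (by norm_num) (by norm_num) (by norm_num [lowd, wl, wu])
  · exact lw (p := 4.79583) (by norm_num) (by norm_num) (by norm_num) (by norm_num [lowd, wl, wu])
  · exact lw (p := 4.89897) (by norm_num) (by norm_num) (by norm_num) (by norm_num [lowd, wl, wu])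
  · exact lw (p := 5.09901) (by norm_num) (by norm_num) (by norm_num) (by norm_num [lowd, wl, wu])
  · exact lw (p := 5.2915) (by norm_num) (by norm_num) (by norm_num) (by norm_num [lowd, wl, wu])
  · exact lw (p := 5.38516) (by norm_num) (by norm_num) (by norm_num) (by norm_num [lowd, wl, wu])
  · exact lw (p := 5.47722) (by norm_num) (by norm_num) (by norm_num) (by norm_num [lowd, wl, wu])
  · exact lw (p := 5.56776) (by norm_num) (by norm_num) (by norm_num) (by norm_num [lowd, wl, wu])
  · exact lw (p := 5.74456) (by norm_num) (by norm_num) (by norm_num) (by norm_num [lowd, wl, wu])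
  · exact lw (p := 5.83095) (by norm_num) (by norm_num) (by norm_num) (by norm_num [lowd, wl, wu])
  · exact lw (p := 5.91607) (by norm_num) (by norm_num) (by norm_num) (by norm_num [lowd, wl, wu])

lemma l2_nonneg (r : ℕ) : 0 ≤ l2 r := by
  unfold l2
  split_ifs
  · have := Real.sqrt_nonneg (r : ℝ)
    positivity
  · positivity

lemma lowd_nonneg : ∀ r ∈ T0, (0 : ℚ) ≤ lowd r := by
  intro r hr
  simp only [T0, mem_insert, mem_singleton] at hr
  rcases hr with rfl | rfl | rfl | rfl | rfl | rfl | rfl | rfl | rfl | rfl | rfl | rfl | rfl | rfl | rfl | rfl | rfl |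
    rfl | rfl | rfl <;> norm_num [lowd]

lemma l2_le {r : ℕ} (hr : r ∈ T0) (h12 : r ≠ 12) (h18 : r ≠ 18) : l2 r ≤ 1 := by
  have h1 := lowd_single r hr h12 h18
  have h2 : (0 : ℝ) ≤ (lowd r : ℝ) := by exact_mod_cast lowd_nonneg r hr
  linarith

lemma sum_single {r : ℕ} (h12 : r ≠ 12) (h18 : r ≠ 18) : ∑ i, (bb r i - aa r i) = 1 - l2 r := by
  rw [Fin.sum_univ_eight]
  simp only [aa, bb, h12, h18, if_false]
  simp

lemma sum12 : ∑ i, (bb 12 i - aa 12 i) = 0.88683 := by
  rw [Fin.sum_univ_eight]
  simp [aa, bb, a12, b12]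
  norm_num

lemma sum18 : ∑ i, (bb 18 i - aa 18 i) = 0.88002 := by
  rw [Fin.sum_univ_eight]
  simp [aa, bb, a18, b18]
  norm_num

lemma lowd_le : ∀ r ∈ T0, (lowd r : ℝ) ≤ ∑ i, (bb r i - aa r i) := by
  intro r hr
  by_cases h12 : r = 12
  · rw [h12, sum12]
    norm_num [lowd]
  by_cases h18 : r = 18
  · rw [h18, sum18]
    norm_num [lowd]
  rw [sum_single h12 h18]
  exact lowd_single r hr h12 h18

lemma prod_lowd : (101 / 400 : ℚ) ≤ ∏ r ∈ T0, lowd r := by
  norm_num [T0, lowd]

lemma prod_aa : (101 / 400 : ℝ) ≤ ∏ r ∈ T0, ∑ i, (bb r i - aa r i) := by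
  have h1 : ((101 / 400 : ℚ) : ℝ) ≤ ((∏ r ∈ T0, lowd r : ℚ) : ℝ) := by exact_mod_cast prod_lowd
  rw [Rat.cast_prod] at h1
  have h2 : ∏ r ∈ T0, (lowd r : ℝ) ≤ ∏ r ∈ T0, ∑ i, (bb r i - aa r i) :=
    prod_le_prod (fun r hr => by exact_mod_cast lowd_nonneg r hr) lowd_le
  refine le_trans ?_ (h1.trans h2)
  norm_num

lemma fract_le_of {y L : ℝ} {m : ℕ} (h1 : 0 ≤ y - m) (h2 : y - m ≤ L) : Int.fract y ≤ L := by
  have h3 : ((m : ℤ) : ℝ) ≤ y := by
    push_cast
    linarith
  have h4 := Int.le_floor.2 h3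
  have h5 : ((m : ℤ) : ℝ) ≤ (⌊y⌋ : ℝ) := by exact_mod_cast h4
  rw [← Int.self_sub_floor]
  push_cast at h5
  linarith

/-- a good degree for a single number of points -/
lemma good_single {D : ℕ → ℕ → Prop} (hD : DIn D) {d : ℕ} (hd : 300 ≤ d) {q : ℕ} (hq : q ∈ T0) (h12 : q ≠ 12)
    (h18 : q ≠ 18) (h : l2 q < Int.fract ((d : ℝ) / Real.sqrt q + g2 q)) : D q d := by
  have hq10 := T0_ge q hq
  have hs3 : 3 ≤ Real.sqrt q := sqrt_ge hq10
  have hs0 : 0 < Real.sqrt q := by linarith
  by_contra hcon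
  by_cases h11 : q = 11 ∨ q = 15
  · obtain ⟨m, hm1, hm2⟩ := hD.2.1 q h11 d hcon
    unfold l2 g2 at h
    rw [if_pos h11, if_neg h12, if_neg h18, if_pos h11] at h
    have h3 : (d : ℝ) / Real.sqrt q + -(3 * (Real.sqrt q - 3) / (Real.sqrt q + 3) / Real.sqrt q) - m =
        ((d : ℝ) - Real.sqrt q * m - 3 * (Real.sqrt q - 3) / (Real.sqrt q + 3)) / Real.sqrt q := by
      field_simp
      ring
    have h4 : Int.fract ((d : ℝ) / Real.sqrt q + -(3 * (Real.sqrt q - 3) / (Real.sqrt q + 3) / Real.sqrt q)) ≤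
        (Real.sqrt q - 3) ^ 2 / (2 * Real.sqrt q * (Real.sqrt q + 3)) := by
      refine fract_le_of (m := m) ?_ ?_
      · rw [h3]
        exact div_nonneg (by linarith) hs0.le
      · rw [h3]
        have h5 : (Real.sqrt q - 3) ^ 2 / (2 * Real.sqrt q * (Real.sqrt q + 3)) =
            ((Real.sqrt q - 3) / 2 - 3 * (Real.sqrt q - 3) / (Real.sqrt q + 3)) / Real.sqrt q := by
          have h6 : Real.sqrt q + 3 ≠ 0 := by linarith
          field_simp
          ring
        rw [h5]
        exact div_le_div_of_nonneg_right (by linarith) hs0.le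
    linarith
  · have hL : q ∈ L20 := by
      have h5 : ∀ q ∈ T0, ¬ (q = 11 ∨ q = 15) → q ∈ L20 := by decide
      exact h5 q hq h11
    obtain ⟨m, hm1, hm2⟩ := hD.1 q hL d hd hcon
    unfold l2 g2 at h
    rw [if_neg h11, if_neg h12, if_neg h18, if_neg h11] at h
    have h3 := fract_deg hs0 hm1 hm2
    linarith

/-- **All numbers of points and all multiplicities at once, for one degree in four.** -/
theorem all_degrees2 (D : ℕ → ℕ → Prop) (hD : DIn D) (K : ℕ) :
    ∃ κ : ℝ, 0 < κ ∧ κ ≤ 1 ∧ ∃ M₀ : ℕ, 2 ≤ M₀ ∧ ∀ M : ℕ, M₀ ≤ M →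
      Sparse κ K M (1 - 101 / 400) (fun d => ∀ r : ℕ, 10 ≤ r → D r d) := by
  apply sparse_of_large (D := 300)
  have hT : (∃ κ : ℝ, 0 < κ ∧ κ ≤ 1 ∧ ∃ M₀ : ℕ, 2 ≤ M₀ ∧ ∀ M : ℕ, M₀ ≤ M →
      Sparse κ K M (1 - ∏ r ∈ T0, ∑ i, (bb r i - aa r i)) (fun d => d < 300 ∨ ∀ r : ℕ, 10 ≤ r → D r d)) := by
    refine seqs_fin2 T0 ⟨10, by decide⟩ sg u1 sg_sf (by decide) (by decide) (fun r hr => (tab r hr).2.1) t0
      (by decide) g2 aa bb ?_ ?_ ?_ ?_ ?_ _ ?_ K
    · intro r hr i
      unfold aa
      split_ifs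
      · fin_cases i <;> simp [a12] <;> norm_num
      · fin_cases i <;> simp [a18] <;> norm_num
      · exact l2_nonneg r
      · norm_num
    · intro r hr i
      unfold aa bb
      split_ifs with h12 h18 h0
      · fin_cases i <;> simp [a12, b12] <;> norm_num
      · fin_cases i <;> simp [a18, b18] <;> norm_num
      · exact l2_le hr h12 h18
      · norm_num
    · intro r hr i
      unfold bb
      split_ifs with h12 h18
      · fin_cases i <;> simp [b12] <;> norm_num
      · fin_cases i <;> simp [b18] <;> norm_num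
      · norm_num
    · intro r hr i i' hii
      unfold aa bb
      split_ifs with h12 h18 h0
      · fin_cases i <;> fin_cases i' <;> simp [a12, b12] at hii ⊢ <;> norm_num
      · fin_cases i <;> fin_cases i' <;> simp [a18, b18] at hii ⊢ <;> norm_num
      · exfalso
        rw [h0] at hii
        exact absurd hii (Fin.not_lt_zero i)
      · norm_num
    · intro r hr
      by_cases h12 : r = 12
      · rw [h12, sum12]
        norm_num
      by_cases h18 : r = 18
      · rw [h18, sum18]
        norm_num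
      rw [sum_single h12 h18]
      linarith [l2_nonneg r]
    intro d hd h
    by_cases hd300 : d < 300
    · exact Or.inl hd300
    right
    have hd300' : 300 ≤ d := by omega
    intro r hr
    have key : ∀ q ∈ T0, q ≠ 12 → q ≠ 18 → D q d := by
      intro q hq h12 h18
      obtain ⟨i, h2, h3⟩ := h q hq
      rw [conv1 hq] at h2 h3
      have e1 : rho q = q := by
        unfold rho
        rw [if_neg h12, if_neg h18]
      rw [e1] at h2 h3
      refine good_single hD hd300' hq h12 h18 ?_
      unfold aa at h2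
      unfold bb at h3
      rw [if_neg h12, if_neg h18] at h2 h3
      by_cases hi : i = 0
      · rw [if_pos hi] at h2
        exact h2
      · rw [if_neg hi] at h2
        linarith
    have h4 : D 12 d ∧ D 27 d := by
      apply dclass12 hD hd300'
      obtain ⟨i, h2, h3⟩ := h 12 (by decide)
      rw [conv1 (by decide)] at h2 h3
      refine ⟨i, ?_, ?_⟩
      · simpa [g2, aa, rho] using h2
      · simpa [g2, bb, rho] using h3
    have h6 : D 18 d ∧ D 32 d := by
      apply dclass18 hD hd300'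
      obtain ⟨i, h2, h3⟩ := h 18 (by decide)
      rw [conv1 (by decide)] at h2 h3
      refine ⟨i, ?_, ?_⟩
      · simpa [g2, aa, rho] using h2
      · simpa [g2, bb, rho] using h3
    rcases Nat.lt_or_ge r 37 with hlt | hge
    · interval_cases r
      · exact key 10 (by decide) (by decide) (by decide)
      · exact key 11 (by decide) (by decide) (by decide)
      · exact h4.1
      · exact hD.2.2 13 d (by norm_num) hd
      · exact key 14 (by decide) (by decide) (by decide)
      · exact key 15 (by decide) (by decide) (by decide)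
      · exact hD.2.2 16 d (Or.inr (Or.inr (Or.inr ⟨by norm_num, ⟨4, by norm_num⟩⟩))) hd
      · exact key 17 (by decide) (by decide) (by decide)
      · exact h6.1
      · exact key 19 (by decide) (by decide) (by decide)
      · exact key 20 (by decide) (by decide) (by decide)
      · exact hD.2.2 21 d (by norm_num) hd
      · exact key 22 (by decide) (by decide) (by decide)
      · exact key 23 (by decide) (by decide) (by decide)
      · exact key 24 (by decide) (by decide) (by decide)
      · exact hD.2.2 25 d (Or.inr (Or.inr (Or.inr ⟨by norm_num, ⟨5, by norm_num⟩⟩))) hd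
      · exact key 26 (by decide) (by decide) (by decide)
      · exact h4.2
      · exact key 28 (by decide) (by decide) (by decide)
      · exact key 29 (by decide) (by decide) (by decide)
      · exact key 30 (by decide) (by decide) (by decide)
      · exact key 31 (by decide) (by decide) (by decide)
      · exact h6.2
      · exact key 33 (by decide) (by decide) (by decide)
      · exact key 34 (by decide) (by decide) (by decide)
      · exact key 35 (by decide) (by decide) (by decide)
      · exact hD.2.2 36 d (Or.inr (Or.inr (Or.inr ⟨by norm_num, ⟨6, by norm_num⟩⟩))) hd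
    · exact hD.2.2 r d (Or.inl hge) hd
  obtain ⟨κ, hκ, hκ1, M₀, hM₀, h⟩ := hT
  exact ⟨κ, hκ, hκ1, M₀, hM₀, fun M hM => (h M hM).mono_eta (by linarith [prod_aa])⟩

/-- one number of points -/
theorem one_degree (D : ℕ → ℕ → Prop) (hD : DIn D) {r : ℕ} (hr : r ∈ L20) (hsq : ¬ IsSquare r) (K : ℕ) :
    ∃ κ : ℝ, 0 < κ ∧ κ ≤ 1 ∧ ∃ M₀ : ℕ, 2 ≤ M₀ ∧ ∀ M : ℕ, M₀ ≤ M →
      Sparse κ K M (((wl r : ℝ) / 1000 + (wu r : ℝ) / 1000) / (2 * Real.sqrt r)) (fun d => D r d) := by
  apply sparse_of_large (D := 300)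
  have hr10 := (L20_le r hr).1
  have hs3 : 3 ≤ Real.sqrt r := sqrt_ge hr10
  have hle : ∀ r ∈ L20, wl r + wu r ≤ 2000 := by decide
  have hleR : (wl r : ℝ) + wu r ≤ 2000 := by exact_mod_cast hle r hr
  have h := deg_several (fun r d => d < 300 ∨ D r d) {r} ⟨r, by simp⟩ (by simpa using hsq)
    (by
      intro a ha b hb hab
      rw [mem_singleton] at ha hb
      exact absurd (ha.trans hb.symm) hab) (fun r => (wl r : ℝ) / 1000) (fun r => (wu r : ℝ) / 1000)
    (by
      intro q hq
      rw [mem_singleton] at hq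
      rw [hq]
      refine ⟨by positivity, ?_⟩
      rw [div_le_one (by positivity)]
      linarith) (by
      intro q hq d hd hcon
      rw [mem_singleton] at hq
      rw [hq] at hcon ⊢
      push Not at hcon
      obtain ⟨m, h1, h2⟩ := hD.1 r hr d hcon.1 hcon.2
      exact ⟨m, h1, h2⟩) (fun d => d < 300 ∨ D r d) (by
      intro d _ h
      exact h r (by simp)) K
  rw [prod_singleton] at h
  have e : 1 - (1 - ((wl r : ℝ) / 1000 + (wu r : ℝ) / 1000) / (2 * Real.sqrt r)) =
      ((wl r : ℝ) / 1000 + (wu r : ℝ) / 1000) / (2 * Real.sqrt r) := by ring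
  rw [e] at h
  exact h

end Pool.Agent.H46.SD
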