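import Pool.Agent.H46.SD.One

set_option autoImplicit false

/-!
# Most degrees, for all large numbers of points
-/

namespace Pool.Agent.H46.SD

open Finset Polynomial Pool.Agent.Q29.Eqd Pool.Agent.Q54.FM

/-- the length of the window of `d / √r` -/
noncomputable def lenD (r : ℕ) : ℝ := ((wl r : ℝ) / 1000 + (wu r : ℝ) / 1000) / (2 * Real.sqrt r)

lemma lenD_le {r : ℕ} {p c : ℝ} (hp0 : 0 < p) (hp : p ^ 2 ≤ (r : ℝ))
    (hc : c ≤ 1 - ((wl r : ℝ) / 1000 + (wu r : ℝ) / 1000) / (2 * p)) : c ≤ 1 - lenD r := by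
  unfold lenD
  have h1 : p ≤ Real.sqrt r := Real.le_sqrt_of_sq_le hp
  have h2 : ((wl r : ℝ) / 1000 + (wu r : ℝ) / 1000) / (2 * Real.sqrt r) ≤
      ((wl r : ℝ) / 1000 + (wu r : ℝ) / 1000) / (2 * p) :=
    div_le_div_of_nonneg_left (by positivity) (by positivity) (by linarith)
  linarith

/-- lower bounds for the proportions of good degrees, the numbers of points from 26 to 35 -/
def lowh (r : ℕ) : ℚ :=
  if r = 26 then 91988 / 100000 else if r = 27 then 92484 / 100000 else if r = 28 then 92062 / 100000 else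
  if r = 29 then 92906 / 100000 else if r = 30 then 93902 / 100000 else if r = 31 then 93264 / 100000 else
  if r = 32 then 94148 / 100000 else if r = 33 then 94333 / 100000 else if r = 34 then 94709 / 100000 else
  95275 / 100000

/-- the numbers of points from 25 to 36 with a window -/
def TH : Finset ℕ := {26, 27, 28, 29, 30, 31, 32, 33, 34, 35}

lemma lowh_le : ∀ r ∈ TH, (lowh r : ℝ) ≤ 1 - lenD r := by
  intro r hr
  simp only [TH, mem_insert, mem_singleton] at hr
  rcases hr with rfl | rfl | rfl | rfl | rfl | rfl | rfl | rfl | rfl | rfl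
  · exact lenD_le (p := 5.09901) (by norm_num) (by norm_num) (by norm_num [lowh, wl, wu])
  · exact lenD_le (p := 5.19615) (by norm_num) (by norm_num) (by norm_num [lowh, wl, wu])
  · exact lenD_le (p := 5.2915) (by norm_num) (by norm_num) (by norm_num [lowh, wl, wu])
  · exact lenD_le (p := 5.38516) (by norm_num) (by norm_num) (by norm_num [lowh, wl, wu])
  · exact lenD_le (p := 5.47722) (by norm_num) (by norm_num) (by norm_num [lowh, wl, wu])
  · exact lenD_le (p := 5.56776) (by norm_num) (by norm_num) (by norm_num [lowh, wl, wu])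
  · exact lenD_le (p := 5.65685) (by norm_num) (by norm_num) (by norm_num [lowh, wl, wu])
  · exact lenD_le (p := 5.74456) (by norm_num) (by norm_num) (by norm_num [lowh, wl, wu])
  · exact lenD_le (p := 5.83095) (by norm_num) (by norm_num) (by norm_num [lowh, wl, wu])
  · exact lenD_le (p := 5.91607) (by norm_num) (by norm_num) (by norm_num [lowh, wl, wu])

lemma lowh_nonneg : ∀ r ∈ TH, (0 : ℚ) ≤ lowh r := by
  intro r hr
  simp only [TH, mem_insert, mem_singleton] at hr
  rcases hr with rfl | rfl | rfl | rfl | rfl | rfl | rfl | rfl | rfl | rfl <;> norm_num [lowh]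

lemma TH_L20 : ∀ r ∈ TH, r ∈ L20 := by decide

lemma TH_pair : ∀ r ∈ TH, ∀ r' ∈ TH, r ≠ r' → ¬ IsSquare (r * r') := by decide +kernel

/-- all numbers of points from `R` on, for a set `T` of numbers with windows -/
theorem from_R (D : ℕ → ℕ → Prop) (hD : DIn D) (R : ℕ) (hR : 10 ≤ R) (T : Finset ℕ) (hT : T ⊆ TH) (hne : T.Nonempty)
    (hcov : ∀ r : ℕ, R ≤ r → r < 37 → r ∈ T ∨ IsSquare r) (c : ℚ) (hc : c ≤ ∏ r ∈ T, lowh r) (K : ℕ) :
    ∃ κ : ℝ, 0 < κ ∧ κ ≤ 1 ∧ ∃ M₀ : ℕ, 2 ≤ M₀ ∧ ∀ M : ℕ, M₀ ≤ M →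
      Sparse κ K M (1 - (c : ℝ)) (fun d => ∀ r : ℕ, R ≤ r → D r d) := by
  apply sparse_of_large (D := 300)
  have hle : ∀ r ∈ L20, wl r + wu r ≤ 2000 := by decide
  have h := deg_several (fun r d => d < 300 ∨ D r d) T hne (fun r hr => L20_nsq r (TH_L20 r (hT hr)))
    (fun r hr r' hr' hrr => TH_pair r (hT hr) r' (hT hr') hrr)
    (fun r => (wl r : ℝ) / 1000) (fun r => (wu r : ℝ) / 1000)
    (by
      intro q hq
      have hq' := TH_L20 q (hT hq)
      have hs3 : 3 ≤ Real.sqrt q := sqrt_ge (L20_le q hq').1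
      have hleR : (wl q : ℝ) + wu q ≤ 2000 := by exact_mod_cast hle q hq'
      refine ⟨by positivity, ?_⟩
      rw [div_le_one (by positivity)]
      linarith) (by
      intro q hq d hd hcon
      push Not at hcon
      exact hD.1 q (TH_L20 q (hT hq)) d hcon.1 hcon.2) (fun d => d < 300 ∨ ∀ r : ℕ, R ≤ r → D r d) (by
      intro d hd h
      by_cases hd3 : d < 300
      · exact Or.inl hd3
      right
      intro r hr
      rcases Nat.lt_or_ge r 37 with hlt | hge
      · rcases hcov r hr hlt with hrT | hsq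
        · rcases h r hrT with h1 | h1
          · exact absurd h1 hd3
          · exact h1
        · exact hD.2.2 r d (Or.inr (Or.inr (Or.inr ⟨by omega, hsq⟩))) hd
      · exact hD.2.2 r d (Or.inl hge) hd) K
  refine sparse_mono_eta ?_ h
  have h1 : ∏ r ∈ T, (lowh r : ℝ) ≤ ∏ r ∈ T, (1 - ((wl r : ℝ) / 1000 + (wu r : ℝ) / 1000) / (2 * Real.sqrt r)) :=
    prod_le_prod (fun r hr => by exact_mod_cast lowh_nonneg r (hT hr)) (fun r hr => lowh_le r (hT hr))
  have h2 : (c : ℝ) ≤ ((∏ r ∈ T, lowh r : ℚ) : ℝ) := by exact_mod_cast hc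
  rw [Rat.cast_prod] at h2
  linarith

/-- **More than half of all degrees, for all numbers of points from 25 on.** -/
theorem half_degrees (D : ℕ → ℕ → Prop) (hD : DIn D) (K : ℕ) :
    ∃ κ : ℝ, 0 < κ ∧ κ ≤ 1 ∧ ∃ M₀ : ℕ, 2 ≤ M₀ ∧ ∀ M : ℕ, M₀ ≤ M →
      Sparse κ K M (1 - ((51 / 100 : ℚ) : ℝ)) (fun d => ∀ r : ℕ, 25 ≤ r → D r d) :=
  from_R D hD 25 (by norm_num) TH (Subset.refl _) ⟨26, by decide⟩ (by
    intro r h1 h2
    interval_cases r <;> first
      | exact Or.inl (by decide)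
      | exact Or.inr (by decide +kernel)) _ (by norm_num [TH, lowh]) K

/-- more than 5/6 of all degrees, for all numbers of points from 33 on. -/
theorem most_degrees (D : ℕ → ℕ → Prop) (hD : DIn D) (K : ℕ) :
    ∃ κ : ℝ, 0 < κ ∧ κ ≤ 1 ∧ ∃ M₀ : ℕ, 2 ≤ M₀ ∧ ∀ M : ℕ, M₀ ≤ M →
      Sparse κ K M (1 - ((85 / 100 : ℚ) : ℝ)) (fun d => ∀ r : ℕ, 33 ≤ r → D r d) :=
  from_R D hD 33 (by norm_num) {33, 34, 35} (by decide) ⟨33, by decide⟩ (by
    intro r h1 h2
    interval_cases r <;> first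
      | exact Or.inl (by decide)
      | exact Or.inr (by decide +kernel)) _ (by norm_num [lowh]) K

/-- `11` and `15` points -/
theorem one_degree11 (D : ℕ → ℕ → Prop) (hD : DIn D) {r : ℕ} (h11 : r = 11 ∨ r = 15) (K : ℕ) :
    ∃ κ : ℝ, 0 < κ ∧ κ ≤ 1 ∧ ∃ M₀ : ℕ, 2 ≤ M₀ ∧ ∀ M : ℕ, M₀ ≤ M →
      Sparse κ K M (((Real.sqrt r - 3) ^ 2 / (Real.sqrt r + 3) + 0) / (2 * Real.sqrt r)) (fun d => D r d) := by
  have hr : 10 ≤ r := by omega
  have hs3 : 3 ≤ Real.sqrt r := sqrt_ge hr
  have h := deg_several D {r} ⟨r, by simp⟩ (by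
      intro q hq
      rw [mem_singleton] at hq
      rw [hq]
      rcases h11 with rfl | rfl <;> decide +kernel)
    (by
      intro a ha b hb hab
      rw [mem_singleton] at ha hb
      exact absurd (ha.trans hb.symm) hab) (fun r => (Real.sqrt r - 3) ^ 2 / (Real.sqrt r + 3)) (fun _ => 0)
    (by
      intro q hq
      rw [mem_singleton] at hq
      rw [hq]
      refine ⟨by positivity, ?_⟩
      linarith [len11 h11]) (by
      intro q hq d hd hcon
      rw [mem_singleton] at hq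
      rw [hq] at hcon ⊢
      obtain ⟨m, h1, h2⟩ := hD.2.1 r h11 d hcon
      refine ⟨m, ?_, ?_⟩
      · have h3 : 3 * (Real.sqrt r - 3) / (Real.sqrt r + 3) * 2 - (Real.sqrt r - 3) =
          -((Real.sqrt r - 3) ^ 2 / (Real.sqrt r + 3)) := by
          have : Real.sqrt r + 3 ≠ 0 := by linarith
          field_simp
          ring
        linarith
      · linarith) (fun d => D r d) (by
      intro d _ h
      exact h r (by simp)) K
  rw [prod_singleton] at h
  refine sparse_mono_eta ?_ h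
  linarith

/-- upper bounds for the proportions of bad degrees for a single number of points -/
noncomputable def badD (r : ℕ) : ℝ :=
  if r = 10 then 47 / 1000 else if r = 11 then 24 / 10000 else if 37 ≤ r then 0 else 95 / 1000

/-- a single number of points -/
theorem one_degree_bad (D : ℕ → ℕ → Prop) (hD : DIn D) {r : ℕ} (hr : 10 ≤ r) (K : ℕ) :
    ∃ κ : ℝ, 0 < κ ∧ κ ≤ 1 ∧ ∃ M₀ : ℕ, 2 ≤ M₀ ∧ ∀ M : ℕ, M₀ ≤ M →
      Sparse κ K M (badD r) (fun d => D r d) := by
  unfold badD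
  split_ifs with h10 h11 h37
  · refine sparse_mono_eta ?_ (one_degree D hD (r := r) (by rw [h10]; decide) (L20_nsq r (by rw [h10]; decide)) K)
    have h1 : (3.1622 : ℝ) ≤ Real.sqrt r := by
      rw [h10]
      exact Real.le_sqrt_of_sq_le (by norm_num)
    rw [div_le_iff₀ (by linarith), h10]
    rw [h10] at h1
    norm_num [wl, wu] at h1 ⊢
    linarith
  · refine sparse_mono_eta ?_ (one_degree11 D hD (Or.inl h11) K)
    have h1 : (3.3166 : ℝ) ≤ Real.sqrt r := by
      rw [h11]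
      exact Real.le_sqrt_of_sq_le (by norm_num)
    have h2 : Real.sqrt r ≤ 3.31663 := by
      rw [h11]
      exact Real.sqrt_le_iff.2 ⟨by norm_num, by norm_num⟩
    rw [add_zero, div_div, div_le_iff₀ (by nlinarith)]
    nlinarith
  · exact sparse_of_all (le_refl 0) fun d hd => hD.2.2 r d (Or.inl h37) hd
  · exact one_degree_all D hD hr K

end Pool.Agent.H46.SD
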