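import Pool.Agent.H46.SD.Deg2

set_option autoImplicit false

/-!
# A single number of points
-/

namespace Pool.Agent.H46.SD

open Finset Polynomial Pool.Agent.Q29.Eqd Pool.Agent.Q54.FM

lemma sparse_of_all {K : ℕ} {η : ℝ} (hη : 0 ≤ η) {P : ℕ → Prop} (h : ∀ d : ℕ, 0 < d → P d) :
    ∃ κ : ℝ, 0 < κ ∧ κ ≤ 1 ∧ ∃ M₀ : ℕ, 2 ≤ M₀ ∧ ∀ M : ℕ, M₀ ≤ M → Sparse κ K M η P := by
  refine ⟨1, one_pos, le_refl 1, 2, le_refl 2, fun M _ => ⟨fun f _ _ _ => ?_, fun b c _ _ q a _ _ => ?_⟩⟩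
  · have h0 : {n : ℕ | n < M ∧ 0 < f.eval (n : ℤ) ∧ ¬ P (f.eval (n : ℤ)).toNat} = ∅ := by
      rw [Set.eq_empty_iff_forall_notMem]
      rintro n ⟨_, h2, h3⟩
      exact h3 (h _ (by omega))
    rw [h0, Set.ncard_empty, Nat.cast_zero]
    have := Real.rpow_nonneg (Nat.cast_nonneg M : (0 : ℝ) ≤ M) (1 - 1)
    positivity
  · have h0 : {p : ℕ | p ≤ M ∧ p.Prime ∧ p ≡ a [MOD q] ∧ 0 < b * p + c ∧ ¬ P (b * p + c).toNat} = ∅ := by
      rw [Set.eq_empty_iff_forall_notMem]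
      rintro n ⟨_, _, _, h2, h3⟩
      exact h3 (h _ (by omega))
    rw [h0, Set.ncard_empty, Nat.cast_zero]
    have := Real.rpow_nonneg (Nat.cast_nonneg M : (0 : ℝ) ≤ M) (1 - 1)
    positivity

lemma sparse_mono_eta {K : ℕ} {η η' : ℝ} (hη : η ≤ η') {P : ℕ → Prop}
    (h : ∃ κ : ℝ, 0 < κ ∧ κ ≤ 1 ∧ ∃ M₀ : ℕ, 2 ≤ M₀ ∧ ∀ M : ℕ, M₀ ≤ M → Sparse κ K M η P) :
    ∃ κ : ℝ, 0 < κ ∧ κ ≤ 1 ∧ ∃ M₀ : ℕ, 2 ≤ M₀ ∧ ∀ M : ℕ, M₀ ≤ M → Sparse κ K M η' P := by
  obtain ⟨κ, hκ, hκ1, M₀, hM₀, h⟩ := h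
  exact ⟨κ, hκ, hκ1, M₀, hM₀, fun M hM => (h M hM).mono_eta hη⟩

lemma ow {r : ℕ} {p : ℝ} (hp0 : 0 < p) (hp : p ^ 2 ≤ (r : ℝ))
    (hc : ((wl r : ℝ) / 1000 + (wu r : ℝ) / 1000) / (2 * p) ≤ 95 / 1000) :
    ((wl r : ℝ) / 1000 + (wu r : ℝ) / 1000) / (2 * Real.sqrt r) ≤ 95 / 1000 := by
  have h1 : p ≤ Real.sqrt r := Real.le_sqrt_of_sq_le hp
  have h2 : ((wl r : ℝ) / 1000 + (wu r : ℝ) / 1000) / (2 * Real.sqrt r) ≤
      ((wl r : ℝ) / 1000 + (wu r : ℝ) / 1000) / (2 * p) :=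
    div_le_div_of_nonneg_left (by positivity) (by positivity) (by linarith)
  linarith

lemma len_le {r : ℕ} (hr : r ∈ L20) :
    ((wl r : ℝ) / 1000 + (wu r : ℝ) / 1000) / (2 * Real.sqrt r) ≤ 95 / 1000 := by
  simp only [L20, List.mem_cons, List.not_mem_nil, or_false] at hr
  rcases hr with rfl | rfl | rfl | rfl | rfl | rfl | rfl | rfl | rfl | rfl | rfl | rfl | rfl | rfl | rfl | rfl |
    rfl | rfl | rfl | rfl
  · exact ow (p := 3.1) (by norm_num) (by norm_num) (by norm_num [wl, wu])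
  · exact ow (p := 3.4) (by norm_num) (by norm_num) (by norm_num [wl, wu])
  · exact ow (p := 3.7) (by norm_num) (by norm_num) (by norm_num [wl, wu])
  · exact ow (p := 4.1) (by norm_num) (by norm_num) (by norm_num [wl, wu])
  · exact ow (p := 4.2) (by norm_num) (by norm_num) (by norm_num [wl, wu])
  · exact ow (p := 4.358) (by norm_num) (by norm_num) (by norm_num [wl, wu])
  · exact ow (p := 4.4) (by norm_num) (by norm_num) (by norm_num [wl, wu])
  · exact ow (p := 4.69) (by norm_num) (by norm_num) (by norm_num [wl, wu])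
  · exact ow (p := 4.7) (by norm_num) (by norm_num) (by norm_num [wl, wu])
  · exact ow (p := 4.8) (by norm_num) (by norm_num) (by norm_num [wl, wu])
  · exact ow (p := 5) (by norm_num) (by norm_num) (by norm_num [wl, wu])
  · exact ow (p := 5) (by norm_num) (by norm_num) (by norm_num [wl, wu])
  · exact ow (p := 5) (by norm_num) (by norm_num) (by norm_num [wl, wu])
  · exact ow (p := 5) (by norm_num) (by norm_num) (by norm_num [wl, wu])
  · exact ow (p := 5) (by norm_num) (by norm_num) (by norm_num [wl, wu])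
  · exact ow (p := 5) (by norm_num) (by norm_num) (by norm_num [wl, wu])
  · exact ow (p := 5) (by norm_num) (by norm_num) (by norm_num [wl, wu])
  · exact ow (p := 5) (by norm_num) (by norm_num) (by norm_num [wl, wu])
  · exact ow (p := 5) (by norm_num) (by norm_num) (by norm_num [wl, wu])
  · exact ow (p := 5) (by norm_num) (by norm_num) (by norm_num [wl, wu])

lemma L20_nsq : ∀ r ∈ L20, ¬ IsSquare r := by decide +kernel

lemma len11 {r : ℕ} (hr : r = 11 ∨ r = 15) :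
    ((Real.sqrt r - 3) ^ 2 / (Real.sqrt r + 3) + 0) / (2 * Real.sqrt r) ≤ 95 / 1000 := by
  have h3 : 3 ≤ Real.sqrt r := sqrt_ge (by rcases hr with rfl | rfl <;> norm_num)
  have h4 : Real.sqrt r ≤ 4 := by
    rw [Real.sqrt_le_left (by norm_num)]
    rcases hr with rfl | rfl <;> norm_num
  rw [add_zero, div_div]
  rw [div_le_iff₀ (by nlinarith)]
  nlinarith

/-- **A single number of points: nine degrees in ten.** -/
theorem one_degree_all (D : ℕ → ℕ → Prop) (hD : DIn D) {r : ℕ} (hr : 10 ≤ r) (K : ℕ) :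
    ∃ κ : ℝ, 0 < κ ∧ κ ≤ 1 ∧ ∃ M₀ : ℕ, 2 ≤ M₀ ∧ ∀ M : ℕ, M₀ ≤ M →
      Sparse κ K M (95 / 1000) (fun d => D r d) := by
  by_cases hL : r ∈ L20
  · exact sparse_mono_eta (len_le hL) (one_degree D hD hL (L20_nsq r hL) K)
  by_cases h11 : r = 11 ∨ r = 15
  · have hs3 : 3 ≤ Real.sqrt r := sqrt_ge hr
    have h := deg_several D {r} ⟨r, by simp⟩ (by
        intro q hq
        rw [mem_singleton] at hq
        rw [hq]
        rcases h11 with rfl | rfl <;> decide +kernel)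
      (by
        intro a ha b hb hab
        rw [mem_singleton] at ha hb
        exact absurd (ha.trans hb.symm) hab) (fun r => (Real.sqrt r - 3) ^ 2 / (Real.sqrt r + 3)) (fun _ => 0)
      (by
        intro q hq
        rw [mem_singleton] at hq
        rw [hq]
        refine ⟨by positivity, ?_⟩
        linarith [len11 h11]) (by
        intro q hq d hd hcon
        rw [mem_singleton] at hq
        rw [hq] at hcon ⊢
        obtain ⟨m, h1, h2⟩ := hD.2.1 r h11 d hcon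
        refine ⟨m, ?_, ?_⟩
        · have h3 : 3 * (Real.sqrt r - 3) / (Real.sqrt r + 3) * 2 - (Real.sqrt r - 3) =
            -((Real.sqrt r - 3) ^ 2 / (Real.sqrt r + 3)) := by
            have : Real.sqrt r + 3 ≠ 0 := by linarith
            field_simp
            ring
          linarith
        · linarith) (fun d => D r d) (by
        intro d _ h
        exact h r (by simp)) K
    rw [prod_singleton] at h
    refine sparse_mono_eta ?_ h
    linarith [len11 h11]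
  · have key : 37 ≤ r ∨ r = 13 ∨ r = 21 ∨ (10 ≤ r ∧ IsSquare r) := by
      rcases Nat.lt_or_ge r 37 with hlt | hge
      · have h5 : ∀ r : Fin 37, 10 ≤ r.1 → r.1 ∉ L20 → ¬ (r.1 = 11 ∨ r.1 = 15) →
            r.1 = 13 ∨ r.1 = 21 ∨ (10 ≤ r.1 ∧ IsSquare r.1) := by
          decide +kernel
        exact Or.inr (h5 ⟨r, hlt⟩ hr hL h11)
      · exact Or.inl hge
    exact sparse_of_all (by norm_num) fun d hd => hD.2.2 r d key hd

end Pool.Agent.H46.SD
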