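import Pool.Agent.H46.SD.Mul
import Pool.Agent.H46.SD.One

set_option autoImplicit false

/-!
# Multiplicities: single numbers of points, all large numbers of points
-/

namespace Pool.Agent.H46.SD

open Finset Polynomial Pool.Agent.Q29.Eqd Pool.Agent.Q54.FM

/-- the lengths of the windows -/
noncomputable def lenM (r : ℕ) : ℝ :=
  if r = 11 ∨ r = 15 then (Real.sqrt r - 3) ^ 2 / (6 * (Real.sqrt r + 3)) else
  ((wl r : ℝ) / 1000 + (wu r : ℝ) / 1000) / 2

/-- the shifts -/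
noncomputable def shM (r : ℕ) : ℝ :=
  if r = 11 ∨ r = 15 then (Real.sqrt r - 3) / 6 else (Real.sqrt r - 3 + (wu r : ℝ) / 1000) / 2

/-- the numbers of points with windows -/
def HasWin (r : ℕ) : Prop := r ∈ L20 ∨ r = 11 ∨ r = 15

lemma HasWin.ge {r : ℕ} (hr : HasWin r) : 10 ≤ r := by
  rcases hr with hr | hr
  · exact (L20_le r hr).1
  · omega

lemma HasWin.nsq {r : ℕ} (hr : HasWin r) : ¬ IsSquare r := by
  rcases hr with hr | rfl | rfl
  · exact L20_nsq r hr
  · decide +kernel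
  · decide +kernel

lemma goodM {G : ℕ → ℕ → Prop} (hG : MIn G) {m : ℕ} (hm : 43 ≤ m) {q : ℕ} (hq : HasWin q)
    (h : lenM q < Int.fract (Real.sqrt q / (if q ∈ ({11, 15} : Finset ℕ) then 3 else 1) * m + shM q)) :
    G q m := by
  have hq10 := hq.ge
  have hs3 : 3 ≤ Real.sqrt q := sqrt_ge hq10
  have hs0 : 0 < Real.sqrt q := by linarith
  by_contra hcon
  by_cases h11 : q = 11 ∨ q = 15
  · have hz : q ∈ ({11, 15} : Finset ℕ) := by
      rcases h11 with rfl | rfl <;> decide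
    obtain ⟨k, hk1, hk2⟩ := hG.2.1 q h11 m hcon
    unfold lenM shM at h
    rw [if_pos h11, if_pos h11, if_pos hz] at h
    have h4 : Int.fract (Real.sqrt q / 3 * m + (Real.sqrt q - 3) / 6) ≤
        (Real.sqrt q - 3) ^ 2 / (6 * (Real.sqrt q + 3)) := by
      refine fract_le_of (m := k) ?_ ?_
      · linarith
      · have h5 : (Real.sqrt q - 3) ^ 2 / (6 * (Real.sqrt q + 3)) =
            (Real.sqrt q - 3) / 6 - (3 * (Real.sqrt q - 3) / (Real.sqrt q + 3)) / 3 := by
          have h6 : Real.sqrt q + 3 ≠ 0 := by linarith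
          field_simp
          ring
        rw [h5]
        linarith
    linarith
  · have hL : q ∈ L20 := hq.resolve_right h11
    have hz : q ∉ ({11, 15} : Finset ℕ) := by
      intro hz
      rw [mem_insert, mem_singleton] at hz
      exact h11 hz
    obtain ⟨d, hd1, hd2⟩ := hG.1 q hL m hm hcon
    unfold lenM shM at h
    rw [if_neg h11, if_neg h11, if_neg hz, div_one] at h
    have h3 := fract_le hd1 hd2
    linarith

/-- lower bounds for the proportions of good multiplicities -/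
def lowM (r : ℕ) : ℚ :=
  if r = 11 then 9973 / 10000 else if r = 15 then 9815 / 10000 else 1 - ((wl r : ℚ) + wu r) / 2000

lemma lowM_le {r : ℕ} (hr : HasWin r) : (lowM r : ℝ) ≤ 1 - lenM r := by
  by_cases h11 : r = 11 ∨ r = 15
  · have e : lenM r = lm2 r := by
      unfold lenM lm2
      rw [if_pos h11]
    rw [e]
    rcases h11 with rfl | rfl
    · exact lm11' (p := 3.31662) (q := 3.31663) (by norm_num) (by norm_num) (by norm_num) (by norm_num) (Or.inl rfl)
        (by norm_num [lowM])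
    · exact lm11' (p := 3.87298) (q := 3.87299) (by norm_num) (by norm_num) (by norm_num) (by norm_num) (Or.inr rfl)
        (by norm_num [lowM])
  · unfold lenM lowM
    rw [if_neg h11, if_neg (by tauto), if_neg (by tauto)]
    push_cast
    linarith

lemma lowM_nonneg {r : ℕ} (hr : HasWin r) : (0 : ℚ) ≤ lowM r := by
  unfold lowM
  split_ifs with h1 h2
  · norm_num
  · norm_num
  · have hle : ∀ r ∈ L20, wl r + wu r ≤ 2000 := by decide
    have h3 : (wl r : ℚ) + wu r ≤ 2000 := by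
      exact_mod_cast hle r (hr.resolve_right (by tauto))
    linarith

lemma lenM_nonneg (r : ℕ) : 0 ≤ lenM r := by
  unfold lenM
  split_ifs
  · have := Real.sqrt_nonneg (r : ℝ)
    positivity
  · positivity

/-- all numbers of points in a finite set `T` -/
theorem mults_T (G : ℕ → ℕ → Prop) (hG : MIn G) (T : Finset ℕ) (hT : ∀ r ∈ T, HasWin r) (hne : T.Nonempty)
    (hpair : ∀ r ∈ T, ∀ r' ∈ T, r ≠ r' → ¬ IsSquare (r * r')) (P : ℕ → Prop)
    (hP : ∀ m : ℕ, 0 < m → (∀ r ∈ T, G r m) → P m) (c : ℚ) (hc : c ≤ ∏ r ∈ T, lowM r) (K : ℕ) :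
    ∃ κ : ℝ, 0 < κ ∧ κ ≤ 1 ∧ ∃ M₀ : ℕ, 2 ≤ M₀ ∧ ∀ M : ℕ, M₀ ≤ M → Sparse κ K M (1 - (c : ℝ)) P := by
  apply sparse_of_large (D := 43)
  have h := several {11, 15} T hne (fun r hr => (hT r hr).nsq) hpair shM lenM (fun r _ => lenM_nonneg r)
    (fun r hr => by
      have h1 := lowM_le (hT r hr)
      have h2 : (0 : ℝ) ≤ (lowM r : ℝ) := by exact_mod_cast lowM_nonneg (hT r hr)
      linarith) (fun m => m < 43 ∨ P m) (by
      intro m hm h
      by_cases hm43 : m < 43
      · exact Or.inl hm43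
      · exact Or.inr (hP m hm fun r hr => goodM hG (by omega) (hT r hr) (h r hr))) K
  refine sparse_mono_eta ?_ h
  have h1 : ∏ r ∈ T, (lowM r : ℝ) ≤ ∏ r ∈ T, (1 - lenM r) :=
    prod_le_prod (fun r hr => by exact_mod_cast lowM_nonneg (hT r hr)) (fun r hr => lowM_le (hT r hr))
  have h2 : (c : ℝ) ≤ ((∏ r ∈ T, lowM r : ℚ) : ℝ) := by exact_mod_cast hc
  rw [Rat.cast_prod] at h2
  linarith

lemma all_from {G : ℕ → ℕ → Prop} (hG : MIn G) {R : ℕ} (hR : 10 ≤ R) {T : Finset ℕ}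
    (hcov : ∀ r : ℕ, R ≤ r → r < 37 → r ∈ T ∨ IsSquare r) {m : ℕ} (hm : 0 < m) (h : ∀ r ∈ T, G r m) :
    ∀ r : ℕ, R ≤ r → G r m := by
  intro r hr
  rcases Nat.lt_or_ge r 37 with hlt | hge
  · rcases hcov r hr hlt with hrT | hsq
    · exact h r hrT
    · exact hG.2.2 r m (Or.inr (Or.inr (Or.inr ⟨by omega, hsq⟩))) hm
  · exact hG.2.2 r m (Or.inl hge) hm

lemma THm_pair : ∀ r ∈ ({33, 34, 35} : Finset ℕ), ∀ r' ∈ ({33, 34, 35} : Finset ℕ), r ≠ r' → ¬ IsSquare (r * r') := by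
  decide +kernel

/-- a third of the multiplicities, all `r ≥ 33` -/
theorem third_mults (G : ℕ → ℕ → Prop) (hG : MIn G) (K : ℕ) :
    ∃ κ : ℝ, 0 < κ ∧ κ ≤ 1 ∧ ∃ M₀ : ℕ, 2 ≤ M₀ ∧ ∀ M : ℕ, M₀ ≤ M →
      Sparse κ K M (1 - ((336 / 1000 : ℚ) : ℝ)) (fun m => ∀ r : ℕ, 33 ≤ r → G r m) :=
  mults_T G hG {33, 34, 35} (fun r hr => Or.inl (by revert r; decide)) ⟨33, by decide⟩ THm_pair _
    (fun m hm h => all_from hG (by norm_num) (fun r h1 h2 => by
      interval_cases r <;> first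
        | exact Or.inl (by decide)
        | exact Or.inr (by decide +kernel)) hm h) _ (by norm_num [lowM, wl, wu]) K

/-- all `r ≥ 35` -/
theorem most_mults (G : ℕ → ℕ → Prop) (hG : MIn G) (K : ℕ) :
    ∃ κ : ℝ, 0 < κ ∧ κ ≤ 1 ∧ ∃ M₀ : ℕ, 2 ≤ M₀ ∧ ∀ M : ℕ, M₀ ≤ M →
      Sparse κ K M (1 - ((72 / 100 : ℚ) : ℝ)) (fun m => ∀ r : ℕ, 35 ≤ r → G r m) :=
  mults_T G hG {35} (fun r hr => Or.inl (by revert r; decide)) ⟨35, by decide⟩ (by decide +kernel) _
    (fun m hm h => all_from hG (by norm_num) (fun r h1 h2 => by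
      interval_cases r <;> first
        | exact Or.inl (by decide)
        | exact Or.inr (by decide +kernel)) hm h) _ (by norm_num [lowM, wl, wu]) K

/-- all `r ≥ 28` -/
theorem some_mults (G : ℕ → ℕ → Prop) (hG : MIn G) (K : ℕ) :
    ∃ κ : ℝ, 0 < κ ∧ κ ≤ 1 ∧ ∃ M₀ : ℕ, 2 ≤ M₀ ∧ ∀ M : ℕ, M₀ ≤ M →
      Sparse κ K M (1 - ((14 / 100 : ℚ) : ℝ)) (fun m => ∀ r : ℕ, 31 ≤ r → G r m) :=
  mults_T G hG {31, 32, 33, 34, 35} (fun r hr => Or.inl (by revert r; decide)) ⟨33, by decide⟩ (by decide +kernel) _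
    (fun m hm h => all_from hG (by norm_num) (fun r h1 h2 => by
      interval_cases r <;> first
        | exact Or.inl (by decide)
        | exact Or.inr (by decide +kernel)) hm h) _ (by norm_num [lowM, wl, wu]) K

/-- upper bounds for the proportions of bad multiplicities for a single number of points -/
noncomputable def badM (r : ℕ) : ℝ :=
  if r = 10 then 147 / 1000 else if r = 11 then 27 / 10000 else if r = 12 then 132 / 1000 else if 37 ≤ r then 0 else
  442 / 1000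

/-- a single number of points -/
theorem one_mult_bad (G : ℕ → ℕ → Prop) (hG : MIn G) {r : ℕ} (hr : 10 ≤ r) (K : ℕ) :
    ∃ κ : ℝ, 0 < κ ∧ κ ≤ 1 ∧ ∃ M₀ : ℕ, 2 ≤ M₀ ∧ ∀ M : ℕ, M₀ ≤ M →
      Sparse κ K M (badM r) (fun m => G r m) := by
  by_cases hW : HasWin r
  · have h := mults_T G hG {r} (fun q hq => by rw [mem_singleton.1 hq]; exact hW) ⟨r, by simp⟩ (by
      intro a ha b hb hab
      rw [mem_singleton] at ha hb
      exact absurd (ha.trans hb.symm) hab) (fun m => G r m) (fun m _ h => h r (by simp)) (lowM r) (by simp) K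
    refine sparse_mono_eta ?_ h
    have h37 : r < 37 := by
      rcases hW with hL | h
      · have := (L20_le r hL).2
        omega
      · omega
    have h1 : ∀ r ∈ L20, r ≠ 10 → r ≠ 12 → wl r + wu r ≤ 884 := by decide
    unfold badM
    split_ifs with h10 h11 h12 h37'
    · rw [h10]
      norm_num [lowM, wl, wu]
    · rw [h11]
      norm_num [lowM]
    · rw [h12]
      norm_num [lowM, wl, wu]
    · omega
    · unfold lowM
      rw [if_neg h11]
      split_ifs with h15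
      · norm_num
      · have h2 : (wl r : ℝ) + wu r ≤ 884 := by
          exact_mod_cast h1 r (hW.resolve_right (by tauto)) h10 h12
        push_cast
        linarith
  · have key : 37 ≤ r ∨ r = 13 ∨ r = 21 ∨ (10 ≤ r ∧ IsSquare r) := by
      rcases Nat.lt_or_ge r 37 with hlt | hge
      · have h5 : ∀ r : Fin 37, 10 ≤ r.1 → r.1 ∉ L20 → ¬ (r.1 = 11 ∨ r.1 = 15) →
            r.1 = 13 ∨ r.1 = 21 ∨ (10 ≤ r.1 ∧ IsSquare r.1) := by
          decide +kernel
        unfold HasWin at hW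
        push Not at hW
        exact Or.inr (h5 ⟨r, hlt⟩ hr hW.1 (by tauto))
      · exact Or.inl hge
    refine sparse_of_all ?_ fun d hd => hG.2.2 r d key hd
    unfold badM
    split_ifs <;> norm_num

end Pool.Agent.H46.SD
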