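import Pool.Agent.H46.SD.Deg2

set_option autoImplicit false

/-!
# Multiplicities for which everything is as expected, for all numbers of points and all degrees
-/

namespace Pool.Agent.H46.SD

open Finset Polynomial Pool.Agent.Q29.Eqd Pool.Agent.Q54.FM

/-- What is known on the multiplicities `m` for which `G r m` holds. -/
def MIn (G : ℕ → ℕ → Prop) : Prop :=
  (∀ r ∈ L20, ∀ m : ℕ, 43 ≤ m → ¬ G r m → ∃ d : ℕ,
    -((wl r : ℝ) / 1000) ≤ 2 * (d : ℝ) + 3 - Real.sqrt r * (2 * m + 1) ∧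
    2 * (d : ℝ) + 3 - Real.sqrt r * (2 * m + 1) ≤ (wu r : ℝ) / 1000) ∧
  (∀ r : ℕ, r = 11 ∨ r = 15 → ∀ m : ℕ, ¬ G r m → ∃ k : ℕ,
    3 * (Real.sqrt r - 3) / (Real.sqrt r + 3) ≤ 3 * (k : ℝ) - Real.sqrt r * m ∧
    3 * (k : ℝ) - Real.sqrt r * m < (Real.sqrt r - 3) / 2) ∧
  (∀ r m : ℕ, 37 ≤ r ∨ r = 13 ∨ r = 21 ∨ (10 ≤ r ∧ IsSquare r) → 0 < m → G r m)

lemma MIn.mono {G G' : ℕ → ℕ → Prop} (hG : MIn G) (h : ∀ r m : ℕ, 10 ≤ r → G r m → G' r m) : MIn G' := by
  refine ⟨fun r hr m hm hn => hG.1 r hr m hm fun hg => hn (h r m (L20_le r hr).1 hg),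
    fun r hr m hn => hG.2.1 r hr m fun hg => hn (h r m (by omega) hg), fun r m hr hm => ?_⟩
  refine h r m ?_ (hG.2.2 r m hr hm)
  rcases hr with hr | hr | hr | hr
  · omega
  · omega
  · omega
  · exact hr.1

theorem mIn : MIn Gd := by
  refine ⟨fun r hr m hm hbad => ?_, fun r hr m hbad => ?_, fun r m hr hm => all_of hm hr⟩
  · by_contra hcon
    apply hbad
    obtain ⟨F, hF, hF'⟩ := winAt hr hm
    refine ⟨F, hF, fun P hP d => hF' P hP d ?_⟩
    rcases lt_or_ge (2 * (d : ℝ) + 3 - Real.sqrt r * (2 * m + 1)) (-((wl r : ℝ) / 1000)) with h | h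
    · exact Or.inl h
    · right
      by_contra h2
      push Not at h2
      exact hcon ⟨d, h, h2⟩
  · by_contra hcon
    apply hbad
    obtain ⟨F, hF, hF'⟩ := win11 hr m
    refine ⟨F, hF, fun P hP d => hF' P hP d ?_⟩
    rintro ⟨⟨k, rfl⟩, h2, h3⟩
    push_cast at h2 h3
    exact hcon ⟨k, h2, h3⟩

/-- the good intervals for `12` and `27` -/
noncomputable def am12 : Fin 8 → ℝ := ![0.05598, 0.42273, 0.72265, 0.92273, 1, 1, 1, 1]

noncomputable def bm12 : Fin 8 → ℝ := ![0.25913, 0.59247, 0.85697, 0.92580, 1, 1, 1, 1]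

/-- the good intervals for `18` and `32` -/
noncomputable def am18 : Fin 8 → ℝ := ![0, 0.21040, 0.51523, 0.71040, 0.84857, 0.96040, 1, 1]

noncomputable def bm18 : Fin 8 → ℝ := ![0.09505, 0.37764, 0.62764, 0.76172, 0.87764, 1, 1, 1]

lemma mclass12 {G : ℕ → ℕ → Prop} (hG : MIn G) {m : ℕ} (hm : 43 ≤ m)
    (h : ∃ i, am12 i < Int.fract (Real.sqrt (3 : ℕ) * m) ∧ Int.fract (Real.sqrt (3 : ℕ) * m) < bm12 i) :
    G 12 m ∧ G 27 m := by
  obtain ⟨s, hs⟩ : ∃ s, s = Real.sqrt ((3 : ℕ) : ℝ) := ⟨_, rfl⟩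
  obtain ⟨b1, b2⟩ := three_bounds
  rw [← hs] at b1 b2 h
  obtain ⟨y, hy⟩ : ∃ y, y = s * m := ⟨_, rfl⟩
  rw [← hy] at h
  obtain ⟨F, hF⟩ : ∃ F : ℤ, F = ⌊y⌋ := ⟨_, rfl⟩
  obtain ⟨f, hf⟩ : ∃ f : ℝ, f = Int.fract y := ⟨_, rfl⟩
  have h1 := Int.self_sub_floor y
  have h2 := Int.fract_lt_one y
  have h3 := Int.fract_nonneg y
  rw [← hF, ← hf] at h1
  rw [← hf] at h h2 h3
  have e12 : Real.sqrt ((12 : ℕ) : ℝ) = 2 * s := by
    have := sqrt_mul_sq 3 2
    norm_num at this ⊢
    rw [this, hs]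
    norm_num
  have e27 : Real.sqrt ((27 : ℕ) : ℝ) = 3 * s := by
    have := sqrt_mul_sq 3 3
    norm_num at this ⊢
    rw [this, hs]
    norm_num
  obtain ⟨i, hi1, hi2⟩ := h
  constructor
  · by_contra hcon
    obtain ⟨d, hd1, hd2⟩ := hG.1 12 (by decide) m hm hcon
    have e : 2 * s * (2 * (m : ℝ) + 1) = 4 * y + 2 * s := by rw [hy]; ring
    rw [e12, e] at hd1 hd2
    norm_num [wl, wu] at hd1 hd2
    obtain ⟨z, hz⟩ : ∃ z : ℤ, z = (d : ℤ) - 2 * F := ⟨_, rfl⟩
    have hzR : (z : ℝ) = d - 2 * F := by rw [hz]; push_cast; ring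
    have g3 : 0.15455 ≤ z - 2 * f := by rw [hzR]; linarith
    have g4 : z - 2 * f ≤ 0.28606 := by rw [hzR]; linarith
    have hz0 : 0 < z := by
      have : (0 : ℝ) < z := by linarith
      exact_mod_cast this
    have hz3 : z < 3 := by
      have : (z : ℝ) < 3 := by linarith
      exact_mod_cast this
    clear hz hzR
    interval_cases z <;> push_cast at g3 g4 <;> fin_cases i <;> simp [am12, bm12] at hi1 hi2 <;> linarith
  · by_contra hcon
    obtain ⟨d, hd1, hd2⟩ := hG.1 27 (by decide) m hm hcon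
    have e : 3 * s * (2 * (m : ℝ) + 1) = 6 * y + 3 * s := by rw [hy]; ring
    rw [e27, e] at hd1 hd2
    norm_num [wl, wu] at hd1 hd2
    obtain ⟨z, hz⟩ : ∃ z : ℤ, z = (d : ℤ) - 3 * F := ⟨_, rfl⟩
    have hzR : (z : ℝ) = d - 3 * F := by rw [hz]; push_cast; ring
    have g3 : 0.83207 ≤ z - 3 * f := by rw [hzR]; linarith
    have g4 : z - 3 * f ≤ 1.22259 := by rw [hzR]; linarith
    have hz0 : 0 < z := by
      have : (0 : ℝ) < z := by linarith
      exact_mod_cast this
    have hz3 : z < 5 := by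
      have : (z : ℝ) < 5 := by linarith
      exact_mod_cast this
    clear hz hzR
    interval_cases z <;> push_cast at g3 g4 <;> fin_cases i <;> simp [am12, bm12] at hi1 hi2 <;> linarith

lemma mclass18 {G : ℕ → ℕ → Prop} (hG : MIn G) {m : ℕ} (hm : 43 ≤ m)
    (h : ∃ i, am18 i < Int.fract (Real.sqrt (2 : ℕ) * m) ∧ Int.fract (Real.sqrt (2 : ℕ) * m) < bm18 i) :
    G 18 m ∧ G 32 m := by
  obtain ⟨s, hs⟩ : ∃ s, s = Real.sqrt ((2 : ℕ) : ℝ) := ⟨_, rfl⟩
  obtain ⟨b1, b2⟩ := two_bounds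
  rw [← hs] at b1 b2 h
  obtain ⟨y, hy⟩ : ∃ y, y = s * m := ⟨_, rfl⟩
  rw [← hy] at h
  obtain ⟨F, hF⟩ : ∃ F : ℤ, F = ⌊y⌋ := ⟨_, rfl⟩
  obtain ⟨f, hf⟩ : ∃ f : ℝ, f = Int.fract y := ⟨_, rfl⟩
  have h1 := Int.self_sub_floor y
  have h2 := Int.fract_lt_one y
  have h3 := Int.fract_nonneg y
  rw [← hF, ← hf] at h1
  rw [← hf] at h h2 h3
  have e18 : Real.sqrt ((18 : ℕ) : ℝ) = 3 * s := by
    have := sqrt_mul_sq 2 3
    norm_num at this ⊢
    rw [this, hs]
    norm_num
  have e32 : Real.sqrt ((32 : ℕ) : ℝ) = 4 * s := by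
    have := sqrt_mul_sq 2 4
    norm_num at this ⊢
    rw [this, hs]
    norm_num
  obtain ⟨i, hi1, hi2⟩ := h
  constructor
  · by_contra hcon
    obtain ⟨d, hd1, hd2⟩ := hG.1 18 (by decide) m hm hcon
    have e : 3 * s * (2 * (m : ℝ) + 1) = 6 * y + 3 * s := by rw [hy]; ring
    rw [e18, e] at hd1 hd2
    norm_num [wl, wu] at hd1 hd2
    obtain ⟨z, hz⟩ : ∃ z : ℤ, z = (d : ℤ) - 3 * F := ⟨_, rfl⟩
    have hzR : (z : ℝ) = d - 3 * F := by rw [hz]; push_cast; ring
    have g3 : 0.45431 ≤ z - 3 * f := by rw [hzR]; linarith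
    have g4 : z - 3 * f ≤ 0.71484 := by rw [hzR]; linarith
    have hz0 : 0 < z := by
      have : (0 : ℝ) < z := by linarith
      exact_mod_cast this
    have hz3 : z < 4 := by
      have : (z : ℝ) < 4 := by linarith
      exact_mod_cast this
    clear hz hzR
    interval_cases z <;> push_cast at g3 g4 <;> fin_cases i <;> simp [am18, bm18] at hi1 hi2 <;> linarith
  · by_contra hcon
    obtain ⟨d, hd1, hd2⟩ := hG.1 32 (by decide) m hm hcon
    have e : 4 * s * (2 * (m : ℝ) + 1) = 8 * y + 4 * s := by rw [hy]; ring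
    rw [e32, e] at hd1 hd2
    norm_num [wl, wu] at hd1 hd2
    obtain ⟨z, hz⟩ : ∃ z : ℤ, z = (d : ℤ) - 4 * F := ⟨_, rfl⟩
    have hzR : (z : ℝ) = d - 4 * F := by rw [hz]; push_cast; ring
    have g3 : 1.15842 ≤ z - 4 * f := by rw [hzR]; linarith
    have g4 : z - 4 * f ≤ 1.48944 := by rw [hzR]; linarith
    have hz0 : 1 < z := by
      have : (1 : ℝ) < z := by linarith
      exact_mod_cast this
    have hz3 : z < 6 := by
      have : (z : ℝ) < 6 := by linarith
      exact_mod_cast this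
    clear hz hzR
    interval_cases z <;> push_cast at g3 g4 <;> fin_cases i <;> simp [am18, bm18] at hi1 hi2 <;> linarith

/-- the shifts -/
noncomputable def gm2 (r : ℕ) : ℝ :=
  if r = 12 then 0 else if r = 18 then 0 else
  if r = 11 ∨ r = 15 then (Real.sqrt r - 3) / 6 else (Real.sqrt r - 3 + (wu r : ℝ) / 1000) / 2

/-- the lengths of the single windows -/
noncomputable def lm2 (r : ℕ) : ℝ :=
  if r = 11 ∨ r = 15 then (Real.sqrt r - 3) ^ 2 / (6 * (Real.sqrt r + 3)) else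
  ((wl r : ℝ) / 1000 + (wu r : ℝ) / 1000) / 2

/-- the left ends of the good intervals -/
noncomputable def aam (r : ℕ) (i : Fin 8) : ℝ :=
  if r = 12 then am12 i else if r = 18 then am18 i else if i = 0 then lm2 r else 1

/-- the right ends of the good intervals -/
noncomputable def bbm (r : ℕ) (i : Fin 8) : ℝ :=
  if r = 12 then bm12 i else if r = 18 then bm18 i else 1

/-- lower bounds for the proportions of good multiplicities -/
def lowm (r : ℕ) : ℚ :=
  if r = 11 then 9973 / 10000 else if r = 15 then 9815 / 10000 else if r = 12 then 51028 / 100000 else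
  if r = 18 then 49469 / 100000 else 1 - ((wl r : ℚ) + wu r) / 2000

lemma lm11 {r : ℕ} {q c : ℝ} (hq : (r : ℝ) ≤ q ^ 2) (hq0 : 0 ≤ q)
    (h11 : r = 11 ∨ r = 15) (hc : (q - 3) ^ 2 / 36 ≤ 1 - c) : c ≤ 1 - lm2 r := by
  unfold lm2
  rw [if_pos h11]
  have h1 : 3 ≤ Real.sqrt r := sqrt_ge (by omega)
  have h2 : Real.sqrt r ≤ q := Real.sqrt_le_iff.2 ⟨hq0, hq⟩
  have h3 : (Real.sqrt r - 3) ^ 2 / (6 * (Real.sqrt r + 3)) ≤ (q - 3) ^ 2 / 36 := by
    apply div_le_div₀ (by positivity)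
    · exact pow_le_pow_left₀ (by linarith) (by linarith) 2
    · positivity
    · linarith
  linarith

lemma lm11' {r : ℕ} {p q c : ℝ} (hp3 : 3 < p) (hp : p ^ 2 ≤ (r : ℝ)) (hq : (r : ℝ) ≤ q ^ 2) (hq0 : 0 ≤ q)
    (h11 : r = 11 ∨ r = 15) (hc : (q - 3) ^ 2 / (6 * (p + 3)) ≤ 1 - c) : c ≤ 1 - lm2 r := by
  unfold lm2
  rw [if_pos h11]
  have h1 : p ≤ Real.sqrt r := Real.le_sqrt_of_sq_le hp
  have h2 : Real.sqrt r ≤ q := Real.sqrt_le_iff.2 ⟨hq0, hq⟩
  have h3 : (Real.sqrt r - 3) ^ 2 / (6 * (Real.sqrt r + 3)) ≤ (q - 3) ^ 2 / (6 * (p + 3)) := by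
    apply div_le_div₀ (by positivity)
    · exact pow_le_pow_left₀ (by linarith) (by linarith) 2
    · positivity
    · linarith
  linarith

lemma lowm_single : ∀ r ∈ T0, r ≠ 12 → r ≠ 18 → (lowm r : ℝ) ≤ 1 - lm2 r := by
  intro r hr h12 h18
  by_cases h11 : r = 11 ∨ r = 15
  · rcases h11 with rfl | rfl
    · exact lm11' (p := 3.31662) (q := 3.31663) (by norm_num) (by norm_num) (by norm_num) (by norm_num) (Or.inl rfl)
        (by norm_num [lowm])
    · exact lm11' (p := 3.87298) (q := 3.87299) (by norm_num) (by norm_num) (by norm_num) (by norm_num) (Or.inr rfl)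
        (by norm_num [lowm])
  · unfold lm2 lowm
    rw [if_neg h11, if_neg (by tauto), if_neg (by tauto), if_neg h12, if_neg h18]
    push_cast
    linarith

lemma lm2_nonneg (r : ℕ) : 0 ≤ lm2 r := by
  unfold lm2
  split_ifs
  · have := Real.sqrt_nonneg (r : ℝ)
    positivity
  · positivity

lemma lowm_nonneg : ∀ r ∈ T0, (0 : ℚ) ≤ lowm r := by
  intro r hr
  simp only [T0, mem_insert, mem_singleton] at hr
  rcases hr with rfl | rfl | rfl | rfl | rfl | rfl | rfl | rfl | rfl | rfl | rfl | rfl | rfl | rfl | rfl | rfl | rfl |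
    rfl | rfl | rfl <;> norm_num [lowm, wl, wu]

lemma lm2_le {r : ℕ} (hr : r ∈ T0) (h12 : r ≠ 12) (h18 : r ≠ 18) : lm2 r ≤ 1 := by
  have h1 := lowm_single r hr h12 h18
  have h2 : (0 : ℝ) ≤ (lowm r : ℝ) := by exact_mod_cast lowm_nonneg r hr
  linarith

lemma summ_single {r : ℕ} (h12 : r ≠ 12) (h18 : r ≠ 18) : ∑ i, (bbm r i - aam r i) = 1 - lm2 r := by
  rw [Fin.sum_univ_eight]
  simp only [aam, bbm, h12, h18, if_false]
  simp

lemma summ12 : ∑ i, (bbm 12 i - aam 12 i) = 0.51028 := by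
  rw [Fin.sum_univ_eight]
  simp [aam, bbm, am12, bm12]
  norm_num

lemma summ18 : ∑ i, (bbm 18 i - aam 18 i) = 0.49469 := by
  rw [Fin.sum_univ_eight]
  simp [aam, bbm, am18, bm18]
  norm_num

lemma lowm_le : ∀ r ∈ T0, (lowm r : ℝ) ≤ ∑ i, (bbm r i - aam r i) := by
  intro r hr
  by_cases h12 : r = 12
  · rw [h12, summ12]
    norm_num [lowm]
  by_cases h18 : r = 18
  · rw [h18, summ18]
    norm_num [lowm]
  rw [summ_single h12 h18]
  exact lowm_single r hr h12 h18

lemma prod_lowm : (1 / 2650 : ℚ) ≤ ∏ r ∈ T0, lowm r := by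
  norm_num [T0, lowm, wl, wu]

lemma prod_aam : (1 / 2650 : ℝ) ≤ ∏ r ∈ T0, ∑ i, (bbm r i - aam r i) := by
  have h1 : ((1 / 2650 : ℚ) : ℝ) ≤ ((∏ r ∈ T0, lowm r : ℚ) : ℝ) := by exact_mod_cast prod_lowm
  rw [Rat.cast_prod] at h1
  have h2 : ∏ r ∈ T0, (lowm r : ℝ) ≤ ∏ r ∈ T0, ∑ i, (bbm r i - aam r i) :=
    prod_le_prod (fun r hr => by exact_mod_cast lowm_nonneg r hr) lowm_le
  refine le_trans ?_ (h1.trans h2)
  norm_num

/-- a good multiplicity for a single number of points -/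
lemma goodm_single {G : ℕ → ℕ → Prop} (hG : MIn G) {m : ℕ} (hm : 43 ≤ m) {q : ℕ} (hq : q ∈ T0) (h12 : q ≠ 12)
    (h18 : q ≠ 18) (h : lm2 q < Int.fract (Real.sqrt q / (if q ∈ ({11, 15} : Finset ℕ) then 3 else 1) * m + gm2 q)) :
    G q m := by
  have hq10 := T0_ge q hq
  have hs3 : 3 ≤ Real.sqrt q := sqrt_ge hq10
  have hs0 : 0 < Real.sqrt q := by linarith
  by_contra hcon
  by_cases h11 : q = 11 ∨ q = 15
  · have hz : q ∈ ({11, 15} : Finset ℕ) := by
      rcases h11 with rfl | rfl <;> decide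
    obtain ⟨k, hk1, hk2⟩ := hG.2.1 q h11 m hcon
    unfold lm2 gm2 at h
    rw [if_pos h11, if_neg h12, if_neg h18, if_pos h11, if_pos hz] at h
    have h4 : Int.fract (Real.sqrt q / 3 * m + (Real.sqrt q - 3) / 6) ≤
        (Real.sqrt q - 3) ^ 2 / (6 * (Real.sqrt q + 3)) := by
      refine fract_le_of (m := k) ?_ ?_
      · linarith
      · have h5 : (Real.sqrt q - 3) ^ 2 / (6 * (Real.sqrt q + 3)) =
            (Real.sqrt q - 3) / 6 - (3 * (Real.sqrt q - 3) / (Real.sqrt q + 3)) / 3 := by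
          have h6 : Real.sqrt q + 3 ≠ 0 := by linarith
          field_simp
          ring
        rw [h5]
        linarith
    linarith
  · have hL : q ∈ L20 := by
      have h5 : ∀ q ∈ T0, ¬ (q = 11 ∨ q = 15) → q ∈ L20 := by decide
      exact h5 q hq h11
    have hz : q ∉ ({11, 15} : Finset ℕ) := by
      intro hz
      rw [mem_insert, mem_singleton] at hz
      exact h11 hz
    obtain ⟨d, hd1, hd2⟩ := hG.1 q hL m hm hcon
    unfold lm2 gm2 at h
    rw [if_neg h11, if_neg h12, if_neg h18, if_neg h11, if_neg hz, div_one] at h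
    have h3 := fract_le hd1 hd2
    linarith

/-- **All numbers of points and all degrees at once, for a proportion of `1 / 2650` of the multiplicities.** -/
theorem all_mults2 (G : ℕ → ℕ → Prop) (hG : MIn G) (K : ℕ) :
    ∃ κ : ℝ, 0 < κ ∧ κ ≤ 1 ∧ ∃ M₀ : ℕ, 2 ≤ M₀ ∧ ∀ M : ℕ, M₀ ≤ M →
      Sparse κ K M (1 - 1 / 2650) (fun m => ∀ r : ℕ, 10 ≤ r → G r m) := by
  apply sparse_of_large (D := 43)
  have hT : (∃ κ : ℝ, 0 < κ ∧ κ ≤ 1 ∧ ∃ M₀ : ℕ, 2 ≤ M₀ ∧ ∀ M : ℕ, M₀ ≤ M →
      Sparse κ K M (1 - ∏ r ∈ T0, ∑ i, (bbm r i - aam r i)) (fun m => m < 43 ∨ ∀ r : ℕ, 10 ≤ r → G r m)) := by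
    refine seqs_fin2 T0 ⟨10, by decide⟩ sg uu sg_sf (by decide) (by decide) (by decide) 3
      (by decide) gm2 aam bbm ?_ ?_ ?_ ?_ ?_ _ ?_ K
    · intro r hr i
      unfold aam
      split_ifs
      · fin_cases i <;> simp [am12] <;> norm_num
      · fin_cases i <;> simp [am18] <;> norm_num
      · exact lm2_nonneg r
      · norm_num
    · intro r hr i
      unfold aam bbm
      split_ifs with h12 h18 h0
      · fin_cases i <;> simp [am12, bm12] <;> norm_num
      · fin_cases i <;> simp [am18, bm18] <;> norm_num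
      · exact lm2_le hr h12 h18
      · norm_num
    · intro r hr i
      unfold bbm
      split_ifs with h12 h18
      · fin_cases i <;> simp [bm12] <;> norm_num
      · fin_cases i <;> simp [bm18] <;> norm_num
      · norm_num
    · intro r hr i i' hii
      unfold aam bbm
      split_ifs with h12 h18 h0
      · fin_cases i <;> fin_cases i' <;> simp [am12, bm12] at hii ⊢ <;> norm_num
      · fin_cases i <;> fin_cases i' <;> simp [am18, bm18] at hii ⊢ <;> norm_num
      · exfalso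
        rw [h0] at hii
        exact absurd hii (Fin.not_lt_zero i)
      · norm_num
    · intro r hr
      by_cases h12 : r = 12
      · rw [h12, summ12]
        norm_num
      by_cases h18 : r = 18
      · rw [h18, summ18]
        norm_num
      rw [summ_single h12 h18]
      linarith [lm2_nonneg r]
    intro m hm0 h
    by_cases hm43 : m < 43
    · exact Or.inl hm43
    right
    have hm : 43 ≤ m := by omega
    intro r hr
    have key : ∀ q ∈ T0, q ≠ 12 → q ≠ 18 → G q m := by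
      intro q hq h12 h18
      obtain ⟨i, h2, h3⟩ := h q hq
      have e := conv_eq h12 h18
      rw [Nat.cast_ofNat, e] at h2 h3
      refine goodm_single hG hm hq h12 h18 ?_
      unfold aam at h2
      unfold bbm at h3
      rw [if_neg h12, if_neg h18] at h2 h3
      by_cases hi : i = 0
      · rw [if_pos hi] at h2
        exact h2
      · rw [if_neg hi] at h2
        linarith
    have h4 : G 12 m ∧ G 27 m := by
      apply mclass12 hG hm
      obtain ⟨i, h2, h3⟩ := h 12 (by decide)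
      refine ⟨i, ?_, ?_⟩
      · simpa [gm2, aam, uu, sg] using h2
      · simpa [gm2, bbm, uu, sg] using h3
    have h6 : G 18 m ∧ G 32 m := by
      apply mclass18 hG hm
      obtain ⟨i, h2, h3⟩ := h 18 (by decide)
      refine ⟨i, ?_, ?_⟩
      · simpa [gm2, aam, uu, sg] using h2
      · simpa [gm2, bbm, uu, sg] using h3
    rcases Nat.lt_or_ge r 37 with hlt | hge
    · interval_cases r
      · exact key 10 (by decide) (by decide) (by decide)
      · exact key 11 (by decide) (by decide) (by decide)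
      · exact h4.1
      · exact hG.2.2 13 m (by norm_num) hm0
      · exact key 14 (by decide) (by decide) (by decide)
      · exact key 15 (by decide) (by decide) (by decide)
      · exact hG.2.2 16 m (Or.inr (Or.inr (Or.inr ⟨by norm_num, ⟨4, by norm_num⟩⟩))) hm0
      · exact key 17 (by decide) (by decide) (by decide)
      · exact h6.1
      · exact key 19 (by decide) (by decide) (by decide)
      · exact key 20 (by decide) (by decide) (by decide)
      · exact hG.2.2 21 m (by norm_num) hm0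
      · exact key 22 (by decide) (by decide) (by decide)
      · exact key 23 (by decide) (by decide) (by decide)
      · exact key 24 (by decide) (by decide) (by decide)
      · exact hG.2.2 25 m (Or.inr (Or.inr (Or.inr ⟨by norm_num, ⟨5, by norm_num⟩⟩))) hm0
      · exact key 26 (by decide) (by decide) (by decide)
      · exact h4.2
      · exact key 28 (by decide) (by decide) (by decide)
      · exact key 29 (by decide) (by decide) (by decide)
      · exact key 30 (by decide) (by decide) (by decide)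
      · exact key 31 (by decide) (by decide) (by decide)
      · exact h6.2
      · exact key 33 (by decide) (by decide) (by decide)
      · exact key 34 (by decide) (by decide) (by decide)
      · exact key 35 (by decide) (by decide) (by decide)
      · exact hG.2.2 36 m (Or.inr (Or.inr (Or.inr ⟨by norm_num, ⟨6, by norm_num⟩⟩))) hm0
    · exact hG.2.2 r m (Or.inl hge) hm0
  obtain ⟨κ, hκ, hκ1, M₀, hM₀, h⟩ := hT
  exact ⟨κ, hκ, hκ1, M₀, hM₀, fun M hM => (h M hM).mono_eta (by linarith [prod_aam])⟩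

end Pool.Agent.H46.SD
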