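import Pool.Agent.H46.SD.Box
import Pool.Graph.R_pool_sql_team_seeded_2aa45f1a.Q54.FM.Abs

set_option autoImplicit false

/-!
# Properties of natural numbers given by the fractional parts of the multiples of several square roots

The good sets of the fractional parts are unions of intervals.
-/

namespace Pool.Agent.H46.SD

open Finset Polynomial Pool.Agent.Q29.Eqd Pool.Agent.Q54.FM

theorem seqs_joint2 {s k : ℕ} (hs : 1 ≤ s) (σ : Fin s → ℕ) (hsf : ∀ j, Squarefree (σ j)) (h1 : ∀ j, σ j ≠ 1)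
    (hinj : Function.Injective σ) (u : Fin s → ℕ) (hu : ∀ j, 1 ≤ u j) (t : ℕ) (ht : 1 ≤ t) (K : ℕ) :
    ∃ κ : ℝ, 0 < κ ∧ κ ≤ 1 ∧ ∃ M₀ : ℕ, 2 ≤ M₀ ∧ ∀ M : ℕ, M₀ ≤ M → ∀ (γ : Fin s → ℝ) (A B : Fin s → Fin k → ℝ),
    (∀ j i, 0 ≤ A j i) → (∀ j i, A j i ≤ B j i) → (∀ j i, B j i ≤ 1) → (∀ j i i', i < i' → B j i ≤ A j i') →
    (∀ j, ∑ i, (B j i - A j i) ≤ 1) → ∀ P : ℕ → Prop,
    (∀ m : ℕ, 0 < m → (∀ j, ∃ i, A j i < Int.fract (u j * Real.sqrt (σ j) / t * m + γ j) ∧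
      Int.fract (u j * Real.sqrt (σ j) / t * m + γ j) < B j i) → P m) →
    Sparse κ K M (1 - ∏ j, ∑ i, (B j i - A j i)) P := by
  classical
  obtain ⟨κ₀, hκ₀, hκ₀1, M₁, hM₁, hJ⟩ := joint_sqrt hs σ hsf h1 hinj u hu t ht K
  obtain ⟨κ, hκ, hκκ, M₂, hM₂, hB⟩ := box_power2 s k κ₀ hκ₀ hκ₀1
  refine ⟨κ, hκ, hκκ.trans hκ₀1, max M₁ M₂, hM₁.trans (le_max_left _ _),
    fun M hM γ A B hA hAB hB1 hdis hsum P hP => ?_⟩
  have hMM1 : M₁ ≤ M := (le_max_left _ _).trans hM
  have hMM2 : M₂ ≤ M := (le_max_right _ _).trans hM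
  have hMpos : 1 ≤ M := by omega
  have hM1 : (1 : ℝ) ≤ M := by exact_mod_cast hMpos
  have hpow : (M : ℝ) ^ κ ≤ (M : ℝ) ^ κ₀ := Real.rpow_le_rpow_of_exponent_le hM1 hκκ
  have hgood : ∀ z : ℤ, 0 < z → (∀ j, ∃ i, A j i < Int.fract (u j * Real.sqrt (σ j) / t * z + γ j) ∧
      Int.fract (u j * Real.sqrt (σ j) / t * z + γ j) < B j i) → P z.toNat := by
    intro z hz h
    apply hP _ (by omega)
    have h3 : ((z.toNat : ℕ) : ℝ) = (z : ℝ) := by
      have : ((z.toNat : ℕ) : ℤ) = z := Int.toNat_of_nonneg hz.le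
      exact_mod_cast congrArg (fun y : ℤ => (y : ℝ)) this
    rw [h3]
    exact h
  constructor
  · intro f hf1 hfK hlc
    have hf0 : f ≠ 0 := by
      rintro rfl
      simp at hf1
    obtain ⟨g, hg⟩ : ∃ g : ℝ[X], g = f.eraseLead.map (Int.castRingHom ℝ) := ⟨_, rfl⟩
    have hgdeg : g.degree < (f.natDegree : WithBot ℕ) := by
      rw [hg]
      refine lt_of_le_of_lt degree_map_le ?_
      rw [← degree_eq_natDegree hf0]
      exact degree_eraseLead_lt hf0
    have hR : ∀ j : Fin s, (C (u j * Real.sqrt (σ j) / t) * g + C (γ j)).degree < (f.natDegree : WithBot ℕ) := by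
      intro j
      refine lt_of_le_of_lt (degree_add_le _ _) (max_lt ?_ ?_)
      · rw [← smul_eq_C_mul]
        exact lt_of_le_of_lt (degree_smul_le _ _) hgdeg
      · refine lt_of_le_of_lt degree_C_le ?_
        exact_mod_cast hf1
    have h2 := (hJ M hMM1 f.leadingCoeff (leadingCoeff_ne_zero.2 hf0) (hlc.trans hpow)).1 f.natDegree hf1 hfK
      (fun j => C (u j * Real.sqrt (σ j) / t) * g + C (γ j)) hR
    have h3 := hB M hMM2 (range M) _ (by rw [card_range]) h2 A B hA hAB hB1 hdis hsum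
      ((range M).filter fun n : ℕ => 0 < f.eval (n : ℤ) ∧ ¬ P (f.eval (n : ℤ)).toNat) (by
        intro n _ hn hn'
        rw [mem_filter] at hn'
        apply hn'.2.2
        apply hgood _ hn'.2.1
        intro j
        have h4 := hn j
        have h5 : (f.leadingCoeff : ℝ) * (u j * Real.sqrt (σ j) / t) * (n : ℝ) ^ f.natDegree +
            (C (u j * Real.sqrt (σ j) / t) * g + C (γ j)).eval (n : ℝ) =
            u j * Real.sqrt (σ j) / t * (f.eval (n : ℤ) : ℤ) + γ j := by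
          have h6 : ((f.eval (n : ℤ) : ℤ) : ℝ) = g.eval (n : ℝ) + f.leadingCoeff * (n : ℝ) ^ f.natDegree := by
            conv_lhs => rw [← eraseLead_add_C_mul_X_pow f]
            rw [eval_add, eval_mul, eval_C, eval_pow, eval_X]
            have h7 : g.eval (n : ℝ) = ((f.eraseLead.eval (n : ℤ) : ℤ) : ℝ) := by
              rw [hg, eval_map, ← Int.cast_natCast (R := ℝ) n]
              exact (hom_eval₂ f.eraseLead (RingHom.id ℤ) (Int.castRingHom ℝ) (n : ℤ)).symm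
            rw [h7]
            push_cast
            ring
          rw [h6, eval_add, eval_mul, eval_C, eval_C]
          ring
        rwa [h5] at h4) (filter_subset _ _)
    rw [card_range] at h3
    have hset : {n : ℕ | n < M ∧ 0 < f.eval (n : ℤ) ∧ ¬ P (f.eval (n : ℤ)).toNat} =
        ↑((range M).filter fun n : ℕ => 0 < f.eval (n : ℤ) ∧ ¬ P (f.eval (n : ℤ)).toNat) := by
      ext n
      simp only [Set.mem_ofPred_eq, coe_filter, mem_range]
    rw [hset, Set.ncard_coe_finset]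
    convert h3
  · intro b h hb hbM d a hd hdM
    have h2 := (hJ M hMM1 b hb (hbM.trans hpow)).2 d a hd (hdM.trans hpow)
      (fun j => u j * Real.sqrt (σ j) / t * h + γ j)
    have hset' : {p : ℕ | p ≤ M ∧ p.Prime ∧ p ≡ a [MOD d]} =
        ↑((range (M + 1)).filter fun p : ℕ => p.Prime ∧ p ≡ a [MOD d]) := by
      ext n
      simp only [Set.mem_ofPred_eq, coe_filter, mem_range]
      constructor
      · rintro ⟨h4, h5⟩
        exact ⟨by omega, h5⟩
      · rintro ⟨h4, h5⟩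
        exact ⟨by omega, h5⟩
    have hcard : ((range (M + 1)).filter fun p : ℕ => p.Prime ∧ p ≡ a [MOD d]).card ≤ M := by
      have hsub : ((range (M + 1)).filter fun p : ℕ => p.Prime ∧ p ≡ a [MOD d]) ⊆ Ioc 0 M := by
        intro p hp
        rw [mem_filter, mem_range] at hp
        rw [mem_Ioc]
        exact ⟨hp.2.1.pos, by omega⟩
      have h3 := card_le_card hsub
      rwa [Nat.card_Ioc, Nat.sub_zero] at h3
    have h3 := hB M hMM2 ((range (M + 1)).filter fun p : ℕ => p.Prime ∧ p ≡ a [MOD d]) _ hcard h2 A B hA hAB hB1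
      hdis hsum
      (((range (M + 1)).filter fun p : ℕ => p.Prime ∧ p ≡ a [MOD d]).filter fun p : ℕ =>
        0 < b * p + h ∧ ¬ P (b * p + h).toNat) (by
        intro p _ hn hn'
        rw [mem_filter] at hn'
        apply hn'.2.2
        apply hgood _ hn'.2.1
        intro j
        have h4 := hn j
        have h5 : (b : ℝ) * (u j * Real.sqrt (σ j) / t) * (p : ℝ) + (u j * Real.sqrt (σ j) / t * h + γ j) =
            u j * Real.sqrt (σ j) / t * ((b * p + h : ℤ) : ℝ) + γ j := by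
          push_cast
          ring
        rwa [h5] at h4) (filter_subset _ _)
    have hset : {p : ℕ | p ≤ M ∧ p.Prime ∧ p ≡ a [MOD d] ∧ 0 < b * p + h ∧ ¬ P (b * p + h).toNat} =
        ↑(((range (M + 1)).filter fun p : ℕ => p.Prime ∧ p ≡ a [MOD d]).filter fun p : ℕ =>
          0 < b * p + h ∧ ¬ P (b * p + h).toNat) := by
      ext n
      simp only [Set.mem_ofPred_eq, coe_filter, mem_range, mem_filter]
      constructor
      · rintro ⟨h4, h5, h6, h7⟩
        exact ⟨⟨by omega, h5, h6⟩, h7⟩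
      · rintro ⟨⟨h4, h5, h6⟩, h7⟩
        exact ⟨by omega, h5, h6, h7⟩
    rw [hset, hset', Set.ncard_coe_finset, Set.ncard_coe_finset]
    convert h3

/-- `seqs_joint2` for functions on a finite set -/
theorem seqs_fin2 {k : ℕ} (T : Finset ℕ) (hT : T.Nonempty) (σ u : ℕ → ℕ) (hsf : ∀ r ∈ T, Squarefree (σ r))
    (h1 : ∀ r ∈ T, σ r ≠ 1) (hinj : ∀ r ∈ T, ∀ r' ∈ T, σ r = σ r' → r = r') (hu : ∀ r ∈ T, 1 ≤ u r)
    (t : ℕ) (ht : 1 ≤ t) (γ : ℕ → ℝ) (A B : ℕ → Fin k → ℝ) (hA : ∀ r ∈ T, ∀ i, 0 ≤ A r i)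
    (hAB : ∀ r ∈ T, ∀ i, A r i ≤ B r i) (hB : ∀ r ∈ T, ∀ i, B r i ≤ 1)
    (hdis : ∀ r ∈ T, ∀ i i', i < i' → B r i ≤ A r i') (hsum : ∀ r ∈ T, ∑ i, (B r i - A r i) ≤ 1) (P : ℕ → Prop)
    (hP : ∀ m : ℕ, 0 < m → (∀ r ∈ T, ∃ i, A r i < Int.fract (u r * Real.sqrt (σ r) / t * m + γ r) ∧
      Int.fract (u r * Real.sqrt (σ r) / t * m + γ r) < B r i) → P m) (K : ℕ) :
    ∃ κ : ℝ, 0 < κ ∧ κ ≤ 1 ∧ ∃ M₀ : ℕ, 2 ≤ M₀ ∧ ∀ M : ℕ, M₀ ≤ M →
      Sparse κ K M (1 - ∏ r ∈ T, ∑ i, (B r i - A r i)) P := by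
  classical
  obtain ⟨e⟩ : Nonempty (Fin T.card ≃ {x // x ∈ T}) := ⟨T.equivFin.symm⟩
  have hs : 1 ≤ T.card := Finset.card_pos.2 hT
  obtain ⟨κ, hκ, hκ1, M₀, hM₀, h⟩ := seqs_joint2 (k := k) hs (fun j => σ (e j)) (fun j => hsf _ (e j).2)
    (fun j => h1 _ (e j).2)
    (fun i j hij => e.injective (Subtype.ext (hinj _ (e i).2 _ (e j).2 hij))) (fun j => u (e j))
    (fun j => hu _ (e j).2) t ht K
  refine ⟨κ, hκ, hκ1, M₀, hM₀, fun M hM => ?_⟩
  have h2 := h M hM (fun j => γ (e j)) (fun j => A (e j)) (fun j => B (e j)) (fun j => hA _ (e j).2)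
    (fun j => hAB _ (e j).2) (fun j => hB _ (e j).2) (fun j => hdis _ (e j).2) (fun j => hsum _ (e j).2) P (by
    intro m hm hj
    apply hP m hm
    intro r hr
    have h3 := hj (e.symm ⟨r, hr⟩)
    simp only [Equiv.apply_symm_apply] at h3
    exact_mod_cast h3)
  have h3 : ∏ j, ∑ i, (B (e j) i - A (e j) i) = ∏ r ∈ T, ∑ i, (B r i - A r i) := by
    rw [← Finset.prod_coe_sort T (fun r => ∑ i, (B r i - A r i))]
    exact Fintype.prod_equiv e _ _ fun j => rfl
  rw [h3] at h2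
  exact h2

/-- finitely many exceptions do not matter -/
theorem sparse_of_large {K D : ℕ} {η : ℝ} {P : ℕ → Prop}
    (h : ∃ κ : ℝ, 0 < κ ∧ κ ≤ 1 ∧ ∃ M₀ : ℕ, 2 ≤ M₀ ∧ ∀ M : ℕ, M₀ ≤ M → Sparse κ K M η (fun m => m < D ∨ P m)) :
    ∃ κ : ℝ, 0 < κ ∧ κ ≤ 1 ∧ ∃ M₀ : ℕ, 2 ≤ M₀ ∧ ∀ M : ℕ, M₀ ≤ M → Sparse κ K M η P := by
  classical
  obtain ⟨κ, hκ, hκ1, M₀, hM₀, h⟩ := h
  obtain ⟨M₁, hM₁1, hM₁⟩ := ev_rpow (κ / 2) (K * D + D + 1) (by positivity)
  refine ⟨κ / 2, by positivity, by linarith, max M₀ M₁, hM₀.trans (le_max_left _ _), fun M hM => ?_⟩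
  have h0 := h M ((le_max_left _ _).trans hM)
  have hbig := hM₁ M ((le_max_right _ _).trans hM)
  have hMpos : 1 ≤ M := by
    have := (le_max_left M₀ M₁).trans hM
    omega
  have hM1 : (1 : ℝ) ≤ M := by exact_mod_cast hMpos
  have hM0 : (0 : ℝ) < M := by linarith
  have hpow : (M : ℝ) ^ (κ / 2) ≤ (M : ℝ) ^ κ := Real.rpow_le_rpow_of_exponent_le hM1 (by linarith)
  have e1 : (M : ℝ) ^ (1 - κ / 2) = (M : ℝ) ^ (κ / 2) * (M : ℝ) ^ (1 - κ) := by
    rw [← Real.rpow_add hM0]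
    congr 1
    ring
  have hone : 1 ≤ (M : ℝ) ^ (1 - κ) := Real.one_le_rpow hM1 (by linarith)
  have hKD : (0 : ℝ) ≤ K * D + D := by positivity
  have key : (M : ℝ) ^ (1 - κ) + (K * D + D) ≤ (M : ℝ) ^ (1 - κ / 2) := by
    rw [e1]
    have h2 : (K * D + D + 1 : ℝ) * (M : ℝ) ^ (1 - κ) ≤ (M : ℝ) ^ (κ / 2) * (M : ℝ) ^ (1 - κ) :=
      mul_le_mul_of_nonneg_right hbig (by positivity)
    nlinarith
  constructor
  · intro f hf1 hfK hlc
    have h3 := h0.1 f hf1 hfK (hlc.trans hpow)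
    have hf0 : f ≠ 0 := by
      rintro rfl
      simp at hf1
    -- the values below `D`
    have hroots : ∀ c : ℤ, ((range M).filter fun n : ℕ => f.eval (n : ℤ) = c).card ≤ K := by
      intro c
      have hfc : f - C c ≠ 0 := by
        intro h4
        have h5 : f = C c := by rwa [sub_eq_zero] at h4
        rw [h5, natDegree_C] at hf1
        omega
      have h4 : ((range M).filter fun n : ℕ => f.eval (n : ℤ) = c).image (fun n : ℕ => (n : ℤ)) ⊆
          (f - C c).roots.toFinset := by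
        intro z hz
        rw [mem_image] at hz
        obtain ⟨n, hn, rfl⟩ := hz
        rw [mem_filter] at hn
        rw [Multiset.mem_toFinset, mem_roots hfc, IsRoot, eval_sub, eval_C, hn.2, sub_self]
      have h5 := card_le_card h4
      rw [card_image_of_injective _ Nat.cast_injective] at h5
      have h6 := (Multiset.toFinset_card_le (f - C c).roots).trans (card_roots' (f - C c))
      rw [natDegree_sub_C] at h6
      omega
    have hsmall : ((range M).filter fun n : ℕ => 0 < f.eval (n : ℤ) ∧ (f.eval (n : ℤ)).toNat < D).card ≤ D * K := by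
      have h4 : ((range M).filter fun n : ℕ => 0 < f.eval (n : ℤ) ∧ (f.eval (n : ℤ)).toNat < D) ⊆
          (range D).biUnion fun c => (range M).filter fun n : ℕ => f.eval (n : ℤ) = (c : ℤ) := by
        intro n hn
        rw [mem_filter] at hn
        rw [mem_biUnion]
        refine ⟨(f.eval (n : ℤ)).toNat, mem_range.2 hn.2.2, mem_filter.2 ⟨hn.1, ?_⟩⟩
        rw [Int.toNat_of_nonneg hn.2.1.le]
      refine (card_le_card h4).trans ?_
      refine card_biUnion_le.trans ?_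
      have h5 := sum_le_card_nsmul (range D) (fun c : ℕ => ((range M).filter fun n : ℕ => f.eval (n : ℤ) = (c : ℤ)).card)
        K fun c _ => hroots c
      rwa [card_range, smul_eq_mul] at h5
    have hset : {n : ℕ | n < M ∧ 0 < f.eval (n : ℤ) ∧ ¬ P (f.eval (n : ℤ)).toNat} ⊆
        {n : ℕ | n < M ∧ 0 < f.eval (n : ℤ) ∧ ¬ ((f.eval (n : ℤ)).toNat < D ∨ P (f.eval (n : ℤ)).toNat)} ∪
          ↑((range M).filter fun n : ℕ => 0 < f.eval (n : ℤ) ∧ (f.eval (n : ℤ)).toNat < D) := by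
      rintro n ⟨h4, h5, h6⟩
      by_cases h7 : (f.eval (n : ℤ)).toNat < D
      · right
        rw [coe_filter]
        exact ⟨mem_range.2 h4, h5, h7⟩
      · left
        exact ⟨h4, h5, fun h8 => h8.elim h7 h6⟩
    have hfin : ({n : ℕ | n < M ∧ 0 < f.eval (n : ℤ) ∧ ¬ ((f.eval (n : ℤ)).toNat < D ∨ P (f.eval (n : ℤ)).toNat)} ∪
          ↑((range M).filter fun n : ℕ => 0 < f.eval (n : ℤ) ∧ (f.eval (n : ℤ)).toNat < D)).Finite := by
      refine Set.Finite.union ((Set.finite_lt_nat M).subset fun n hn => hn.1) (Finset.finite_toSet _)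
    have h4 := (Set.ncard_le_ncard hset hfin).trans (Set.ncard_union_le _ _)
    rw [Set.ncard_coe_finset] at h4
    have h5 : ({n : ℕ | n < M ∧ 0 < f.eval (n : ℤ) ∧ ¬ P (f.eval (n : ℤ)).toNat}.ncard : ℝ) ≤
        ({n : ℕ | n < M ∧ 0 < f.eval (n : ℤ) ∧ ¬ ((f.eval (n : ℤ)).toNat < D ∨
          P (f.eval (n : ℤ)).toNat)}.ncard : ℝ) + D * K := by
      exact_mod_cast h4.trans (Nat.add_le_add_left hsmall _)
    have h6 : (0 : ℝ) ≤ D := Nat.cast_nonneg D
    nlinarith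
  · intro b c hb hbM q a hq hqM
    have h3 := h0.2 b c hb (hbM.trans hpow) q a hq (hqM.trans hpow)
    have hsmall : ((range (M + 1)).filter fun p : ℕ => 0 < b * (p : ℤ) + c ∧ (b * (p : ℤ) + c).toNat < D).card ≤ D := by
      have h4 : ∀ p ∈ (range (M + 1)).filter fun p : ℕ => 0 < b * (p : ℤ) + c ∧ (b * (p : ℤ) + c).toNat < D,
          (b * (p : ℤ) + c).toNat ∈ range D := by
        intro p hp
        rw [mem_filter] at hp
        exact mem_range.2 hp.2.2
      refine (card_le_card_of_injOn _ h4 ?_).trans (by rw [card_range])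
      intro p hp p' hp' hpp
      rw [coe_filter] at hp hp'
      have h5 : b * (p : ℤ) + c = b * (p' : ℤ) + c := by
        have h6 := Int.toNat_of_nonneg hp.2.1.le
        have h7 := Int.toNat_of_nonneg hp'.2.1.le
        simp only at hpp
        rw [← h6, ← h7, hpp]
      have h6 : b * (p : ℤ) = b * (p' : ℤ) := by linarith
      exact_mod_cast mul_left_cancel₀ hb h6
    have hset : {p : ℕ | p ≤ M ∧ p.Prime ∧ p ≡ a [MOD q] ∧ 0 < b * p + c ∧ ¬ P (b * p + c).toNat} ⊆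
        {p : ℕ | p ≤ M ∧ p.Prime ∧ p ≡ a [MOD q] ∧ 0 < b * p + c ∧ ¬ ((b * p + c).toNat < D ∨ P (b * p + c).toNat)} ∪
          ↑((range (M + 1)).filter fun p : ℕ => 0 < b * (p : ℤ) + c ∧ (b * (p : ℤ) + c).toNat < D) := by
      rintro p ⟨h4, h5, h6, h7, h8⟩
      by_cases h9 : (b * (p : ℤ) + c).toNat < D
      · right
        rw [coe_filter]
        exact ⟨mem_range.2 (by omega), h7, h9⟩
      · left
        exact ⟨h4, h5, h6, h7, fun h10 => h10.elim h9 h8⟩
    have hfin : ({p : ℕ | p ≤ M ∧ p.Prime ∧ p ≡ a [MOD q] ∧ 0 < b * p + c ∧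
        ¬ ((b * p + c).toNat < D ∨ P (b * p + c).toNat)} ∪
          ↑((range (M + 1)).filter fun p : ℕ => 0 < b * (p : ℤ) + c ∧ (b * (p : ℤ) + c).toNat < D)).Finite := by
      refine Set.Finite.union ((Set.finite_le_nat M).subset fun n hn => hn.1) (Finset.finite_toSet _)
    have h4 := (Set.ncard_le_ncard hset hfin).trans (Set.ncard_union_le _ _)
    rw [Set.ncard_coe_finset] at h4
    have h5 : ({p : ℕ | p ≤ M ∧ p.Prime ∧ p ≡ a [MOD q] ∧ 0 < b * p + c ∧ ¬ P (b * p + c).toNat}.ncard : ℝ) ≤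
        ({p : ℕ | p ≤ M ∧ p.Prime ∧ p ≡ a [MOD q] ∧ 0 < b * p + c ∧
          ¬ ((b * p + c).toNat < D ∨ P (b * p + c).toNat)}.ncard : ℝ) + D := by
      exact_mod_cast h4.trans (Nat.add_le_add_left hsmall _)
    have h6 : (0 : ℝ) ≤ K * D := by positivity
    linarith

end Pool.Agent.H46.SD
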